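import Pool.Agent.H.MP_d91f4a_co.LinLemma

/-!
# Averages over product sets, one variable at a time
-/

namespace Pool.Agent.H.MP_d91f4a_co

open Finset Module

/-- the exponent `θ` with `q^(-θ) = c + (1 - c)/s` -/
noncomputable def expo (q s : ℕ) (c : ℝ) : ℝ := -Real.log (c + (1 - c) / s) / Real.log q

theorem base_pos {s : ℕ} (hs : 1 ≤ s) {c : ℝ} (hc0 : 0 ≤ c) (hc1 : c ≤ 1) :
    0 < c + (1 - c) / s := by
  have hs' : (0 : ℝ) < s := by exact_mod_cast hs
  rcases hc0.eq_or_lt with h | h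
  · rw [← h]; simpa using hs'
  · have := div_nonneg (sub_nonneg.mpr hc1) hs'.le
    linarith

theorem expo_pos {q s : ℕ} (hq : 2 ≤ q) (hs : 2 ≤ s) {c : ℝ} (hc0 : 0 ≤ c) (hc1 : c < 1) :
    0 < expo q s c := by
  have hs' : (2 : ℝ) ≤ s := by exact_mod_cast hs
  have h1 := base_pos (s := s) (by omega) hc0 hc1.le
  have h2 : c + (1 - c) / s < 1 := by
    have : (1 - c) / s < (1 - c) := div_lt_self (by linarith) (by linarith)
    linarith
  exact div_pos (neg_pos.mpr (Real.log_neg h1 h2)) (Real.log_pos (by exact_mod_cast hq))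

theorem expo_le_one {q s : ℕ} (hq : 2 ≤ q) (hs : 1 ≤ s) (hsq : s ≤ q) {c : ℝ} (hc0 : 0 ≤ c)
    (hc1 : c ≤ 1) : expo q s c ≤ 1 := by
  have hs' : (1 : ℝ) ≤ s := by exact_mod_cast hs
  have hq' : (0 : ℝ) < q := by positivity
  have h1 := base_pos hs hc0 hc1
  rw [expo, div_le_one (Real.log_pos (by exact_mod_cast hq)), ← Real.log_inv]
  apply Real.log_le_log (by positivity)
  rw [inv_le_comm₀ h1 hq']
  have h3 : (q : ℝ)⁻¹ ≤ (s : ℝ)⁻¹ := inv_anti₀ (by linarith) (by exact_mod_cast hsq)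
  have h4 : (s : ℝ)⁻¹ ≤ 1 := inv_le_one_of_one_le₀ hs'
  calc (q : ℝ)⁻¹ ≤ (s : ℝ)⁻¹ := h3
    _ = c * (s : ℝ)⁻¹ + (1 - c) * (s : ℝ)⁻¹ := by ring
    _ ≤ c * 1 + (1 - c) * (s : ℝ)⁻¹ := by gcongr
    _ = c + (1 - c) / s := by rw [mul_one, div_eq_mul_inv]

theorem average_le {F : Type*} [Field F] [Fintype F] [DecidableEq F] {ι κ : Type*} [Fintype ι]
    [DecidableEq ι] [Fintype κ] [DecidableEq κ] (S : Finset F) (hS : S.Nonempty)
    (M : (ι → F) →ₗ[F] (κ → F)) {c : ℝ} (hc0 : 0 ≤ c) (hc1 : c ≤ 1) :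
    (∑ x ∈ Fintype.piFinset (fun _ : ι => S), ∏ j, (if M x j = 0 then (1 : ℝ) else c)) /
        #(Fintype.piFinset (fun _ : ι => S)) ≤
      ((#{x : ι → F | M x = 0} : ℝ) / #(univ : Finset (ι → F))) ^
        expo (Fintype.card F) #S c := by
  obtain ⟨r, h1, h2⟩ := weighted_le S hS M hc0 hc1
  have hq : 2 ≤ Fintype.card F := Fintype.one_lt_card
  have hq' : (0 : ℝ) < Fintype.card F := by positivity
  have hSpos : (0 : ℝ) < #S := by exact_mod_cast hS.card_pos
  have hb := base_pos (s := #S) hS.card_pos hc0 hc1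
  have hlog : 0 < Real.log (Fintype.card F) := Real.log_pos (by exact_mod_cast hq)
  have h3 : (#{x : ι → F | M x = 0} : ℝ) / #(univ : Finset (ι → F)) =
      ((Fintype.card F : ℝ) ^ r)⁻¹ := by
    rw [Finset.card_univ, Fintype.card_fun]
    push_cast
    rw [← h1]
    have h5 : (#{x : ι → F | M x = 0} : ℝ) ≠ 0 := by
      intro h
      rw [h, zero_mul] at h1
      exact absurd h1.symm (by positivity)
    field_simp
  rw [h3, Fintype.card_piFinset]
  have h4 : (((Fintype.card F : ℝ) ^ r)⁻¹) ^ expo (Fintype.card F) #S c =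
      (c + (1 - c) / #S) ^ r := by
    rw [← Real.rpow_natCast, ← Real.rpow_natCast, ← Real.rpow_neg hq'.le, ← Real.rpow_mul hq'.le]
    rw [← Real.exp_log hq', ← Real.exp_mul]
    conv_rhs => rw [← Real.exp_log hb, ← Real.exp_mul]
    congr 1
    rw [expo]
    field_simp
  rw [h4]
  simp only [prod_const, card_univ]
  push_cast
  rw [div_le_iff₀ (by positivity), mul_comm]
  exact h2

/-- Summing over a product set, one coordinate first. -/
theorem sum_box {d : ℕ} {V : Type*} [DecidableEq V] {R : Type*} [AddCommMonoid R]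
    (T : Fin (d + 1) → Finset V) (i : Fin (d + 1)) (f : (Fin (d + 1) → V) → R) :
    ∑ x ∈ Fintype.piFinset T, f x =
      ∑ y ∈ Fintype.piFinset (i.removeNth T), ∑ a ∈ T i, f (i.insertNth a y) := by
  rw [← Finset.sum_product']
  refine Finset.sum_bij' (fun x _ => (i.removeNth x, x i)) (fun z _ => i.insertNth z.2 z.1)
    ?_ ?_ ?_ ?_ ?_
  · intro x hx
    rw [Finset.mem_product]
    have := (Fin.mem_piFinset_iff_pivot_removeNth (f := x) (s := T) i).mp hx
    exact ⟨this.2, this.1⟩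
  · intro z hz
    rw [Finset.mem_product] at hz
    rw [Fin.mem_piFinset_iff_pivot_removeNth i]
    rw [Fin.insertNth_apply_same, Fin.removeNth_insertNth]
    exact ⟨hz.2, hz.1⟩
  · intro x _
    simp
  · intro z _
    simp
  · intro x _
    simp

theorem card_box {d : ℕ} {V : Type*} [DecidableEq V]
    (T : Fin (d + 1) → Finset V) (i : Fin (d + 1)) :
    #(Fintype.piFinset T) = #(Fintype.piFinset (i.removeNth T)) * #(T i) := by
  have := sum_box (R := ℕ) T i (fun _ => 1)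
  simpa using this

/-- average over a product set -/
noncomputable def av {d : ℕ} {V : Type*} [DecidableEq V] (T : Fin d → Finset V)
    (f : (Fin d → V) → ℝ) : ℝ :=
  (∑ x ∈ Fintype.piFinset T, f x) / #(Fintype.piFinset T)

theorem av_eq {d : ℕ} {V : Type*} [DecidableEq V] (T : Fin (d + 1) → Finset V)
    (i : Fin (d + 1)) (f : (Fin (d + 1) → V) → ℝ) :
    av T f = (∑ y ∈ Fintype.piFinset (i.removeNth T), (∑ a ∈ T i, f (i.insertNth a y)) / #(T i)) /
      #(Fintype.piFinset (i.removeNth T)) := by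
  rw [av, sum_box T i, card_box T i, ← Finset.sum_div, div_div, mul_comm]
  push_cast
  rfl

theorem jensen {α : Type*} (s : Finset α) (g : α → ℝ) (hg : ∀ x ∈ s, 0 ≤ g x) {θ : ℝ}
    (h0 : 0 ≤ θ) (h1 : θ ≤ 1) (hs : s.Nonempty) :
    (∑ x ∈ s, g x ^ θ) / #s ≤ ((∑ x ∈ s, g x) / #s) ^ θ := by
  have hpos : (0 : ℝ) < #s := by exact_mod_cast hs.card_pos
  have := (Real.concaveOn_rpow h0 h1).le_map_sum (t := s) (w := fun _ => (#s : ℝ)⁻¹) (p := g)
    (fun _ _ => by positivity) (by simp [hpos.ne']) (fun x hx => hg x hx)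
  simp only [smul_eq_mul, ← Finset.mul_sum] at this
  rw [div_eq_inv_mul, div_eq_inv_mul]
  exact this

/-- Replacing one factor of the product set. -/
theorem av_replace {d : ℕ} {V : Type*} [DecidableEq V] (T : Fin (d + 1) → Finset V)
    (hT : ∀ i, (T i).Nonempty) (i : Fin (d + 1)) (A B : Finset V)
    (f g : (Fin (d + 1) → V) → ℝ) (hg : ∀ x, 0 ≤ g x) {θ : ℝ} (h0 : 0 ≤ θ) (h1 : θ ≤ 1)
    (h : ∀ y : Fin d → V, (∑ a ∈ A, f (i.insertNth a y)) / #A ≤
      ((∑ b ∈ B, g (i.insertNth b y)) / #B) ^ θ) :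
    av (Function.update T i A) f ≤ (av (Function.update T i B) g) ^ θ := by
  rw [av_eq _ i, av_eq _ i]
  simp only [Fin.removeNth_update, Function.update_self]
  have hne : (Fintype.piFinset (i.removeNth T)).Nonempty :=
    Fintype.piFinset_nonempty.mpr fun j => hT _
  refine le_trans ?_ (jensen _ _ ?_ h0 h1 hne)
  · gcongr with y _
    exact h y
  · intro y _
    exact div_nonneg (Finset.sum_nonneg fun b _ => hg _) (by positivity)

end Pool.Agent.H.MP_d91f4a_co
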