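import Mathlib

/-!
# Biased multilinear forms on restricted alphabets: definitions
-/

namespace Pool.Agent.H.MP_d91f4a_co

open Finset

/-- `d`-linear forms on `F_p^n` -/
abbrev Form (p d n : ℕ) [Fact p.Prime] : Type :=
  MultilinearMap (ZMod p) (fun _ : Fin d => Fin n → ZMod p) (ZMod p)

variable {p : ℕ} [Fact p.Prime] {d n : ℕ}

/-- the set `(S^n)^d` of all `x = (x_1, ..., x_d)` with every `x_j` in `S^n` -/
def box (S : Finset (ZMod p)) (d n : ℕ) : Finset (Fin d → Fin n → ZMod p) :=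
  Fintype.piFinset fun _ => Fintype.piFinset fun _ => S

/-- `bias_{t,S} m`, the average over `x` in `(S^n)^d` of `exp(2 pi i t m(x) / p)` -/
noncomputable def bias (t : ZMod p) (S : Finset (ZMod p)) (m : Form p d n) : ℂ :=
  (∑ x ∈ box S d n, (ZMod.stdAddChar (t * m x) : ℂ)) / ((box S d n).card : ℂ)

/-- the analytic rank of `m` -/
noncomputable def ar (m : Form p d n) : ℝ := -Real.logb p ‖bias 1 univ m‖

/-- `m` has partition rank at most `r`: `m` is a sum of `r` products `a(x_I) b(x_{I^c})`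
with `I` a nonempty proper subset of the variables and `a`, `b` multilinear -/
def PRank (m : Form p d n) (r : ℕ) : Prop :=
  ∃ I : Fin r → Finset (Fin d), (∀ k, (I k).Nonempty ∧ I k ≠ univ) ∧
    ∃ (a : ∀ k, MultilinearMap (ZMod p) (fun _ : ↥(I k) => Fin n → ZMod p) (ZMod p))
      (b : ∀ k, MultilinearMap (ZMod p) (fun _ : ↥(I k)ᶜ => Fin n → ZMod p) (ZMod p)),
      ∀ x, m x = ∑ k, a k (fun i => x i) * b k (fun i => x i)

/-- the partition rank of `m` is at most the real number `R` -/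
def PRankLE (m : Form p d n) (R : ℝ) : Prop := ∃ r : ℕ, (r : ℝ) ≤ R ∧ PRank m r

/-- The statement of the question for given `p`, `d`, `S`. -/
def LinBound (p d : ℕ) [Fact p.Prime] (S : Finset (ZMod p)) : Prop :=
  ∃ C : ℝ, 0 < C ∧ ∀ n : ℕ, 1 ≤ n → ∀ ε : ℝ, 0 < ε → ε ≤ 1 → ∀ m : Form p d n,
    (∃ t : ZMod p, t ≠ 0 ∧ ε ≤ ‖bias t S m‖) → PRankLE m (C * Real.log ε⁻¹)

/-- Linear comparison of partition rank and analytic rank of `d`-linear forms over `F_p`. -/
def ArBound (p d : ℕ) [Fact p.Prime] : Prop :=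
  ∃ C : ℝ, 0 < C ∧ ∀ n : ℕ, 1 ≤ n → ∀ m : Form p d n, PRankLE m (C * ar m)

end Pool.Agent.H.MP_d91f4a_co
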