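import Pool.Agent.H.MP_d91f4a_co.Pullback

/-!
# The alphabet plays no role
-/

namespace Pool.Agent.H.MP_d91f4a_co

open Finset Module

variable {p : ℕ} [Fact p.Prime] {d n : ℕ}

theorem PRankLE.mono {m : Form p d n} {R R' : ℝ} (h : PRankLE m R) (hR : R ≤ R') :
    PRankLE m R' := by
  obtain ⟨r, hr, hm⟩ := h
  exact ⟨r, hr.trans hR, hm⟩

theorem bias_one_univ_le_one (m : Form p d n) : ‖bias 1 univ m‖ ≤ 1 := by
  rw [bias, norm_div, Complex.norm_natCast]
  apply div_le_one_of_le₀ _ (by positivity)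
  refine (norm_sum_le _ _).trans ?_
  simp

/-- analytic rank is linearly bounded in terms of the bias on `S` -/
theorem ar_le (e : ℕ) (S : Finset (ZMod p)) (hS : 2 ≤ #S) :
    ∃ C : ℝ, 0 < C ∧ ∀ (n : ℕ) (m : Form p (e + 2) n) (t : ZMod p) (ε : ℝ), t ≠ 0 → 0 < ε →
      ε ≤ ‖bias t S m‖ → ar m ≤ C * Real.log ε⁻¹ := by
  obtain ⟨θ, hθ, hb⟩ := bias_le e S hS
  have hp : (1 : ℝ) < p := by exact_mod_cast (Fact.out : p.Prime).one_lt
  have hlog : 0 < Real.log p := Real.log_pos hp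
  refine ⟨1 / (θ * Real.log p), by positivity, ?_⟩
  intro n m t ε ht hε h
  have h1 := h.trans (hb n m t ht)
  have hpos := norm_bias_univ_pos m
  have h2 := Real.log_le_log hε h1
  rw [Real.log_rpow hpos] at h2
  rw [ar, Real.logb, Real.log_inv]
  rw [← neg_div, div_le_iff₀ hlog]
  have h3 : 1 / (θ * Real.log p) * -Real.log ε * Real.log p = (-Real.log ε) / θ := by
    field_simp
  rw [h3, le_div_iff₀ hθ]
  linarith

theorem linBound_iff (p : ℕ) [Fact p.Prime] (d : ℕ) (hd : 2 ≤ d) (S : Finset (ZMod p))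
    (hS : 2 ≤ #S) : LinBound p d S ↔ ArBound p d := by
  obtain ⟨e, rfl⟩ : ∃ e, d = e + 2 := ⟨d - 2, by omega⟩
  have hp : (1 : ℝ) < p := by exact_mod_cast (Fact.out : p.Prime).one_lt
  have hlog : 0 < Real.log p := Real.log_pos hp
  constructor
  · rintro ⟨C, hC, h⟩
    refine ⟨C * Real.log p, by positivity, fun n hn m => ?_⟩
    have hpos := norm_bias_univ_pos m
    have h1 := h (n + n) (by omega) ‖bias 1 univ m‖ hpos (bias_one_univ_le_one m) (pull m)
      ⟨1, one_ne_zero, bias_le_pull m 1 one_ne_zero S (Finset.card_pos.mp (by omega))⟩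
    obtain ⟨r, hr, hm⟩ := h1
    refine ⟨r, hr.trans (le_of_eq ?_), hm.of_pull⟩
    rw [ar, Real.logb, Real.log_inv]
    field_simp
  · rintro ⟨C, hC, h⟩
    obtain ⟨C', hC', h'⟩ := ar_le e S hS
    refine ⟨C * C', by positivity, fun n hn ε hε _ m => ?_⟩
    rintro ⟨t, ht, hb⟩
    refine (h n hn m).mono ?_
    rw [mul_assoc]
    exact mul_le_mul_of_nonneg_left (h' n m t ε ht hε hb) hC.le

end Pool.Agent.H.MP_d91f4a_co
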