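import Mathlib

/-!
# Solutions of linear systems with unknowns in a restricted alphabet
-/

namespace Pool.Agent.H.MP_d91f4a_co

open Finset Module

variable {F : Type*} [Field F] {ι κ : Type*} [Fintype ι] [DecidableEq ι]
  [Fintype κ] [DecidableEq κ]

/-- a subspace of dimension `w` has at most `|S|^w` points with coordinates in `S` -/
theorem card_subspace_le (S : Finset F) (hS : S.Nonempty) (W : Submodule F (ι → F))
    [DecidablePred (· ∈ W)] :
    #{x ∈ Fintype.piFinset (fun _ : ι => S) | x ∈ W} ≤ #S ^ finrank F W := by
  classical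
  set v : ι → Dual F W := fun i => (LinearMap.proj i).comp W.subtype with hv
  obtain ⟨κ', a, ha, hspan, hli⟩ := exists_linearIndependent' F v
  have : Finite κ' := Finite.of_injective a ha
  have := Fintype.ofFinite κ'
  have hcard : Fintype.card κ' ≤ finrank F W := by
    rw [← Subspace.dual_finrank_eq]
    exact hli.fintype_card_le_finrank
  have hinj : Set.InjOn (fun (x : ι → F) (k : κ') => x (a k)) (W : Set (ι → F)) := by
    intro x hx y hy hxy
    have h0 : ∀ φ ∈ Submodule.span F (Set.range v), φ (⟨x, hx⟩ - ⟨y, hy⟩) = 0 := by
      rw [← hspan]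
      intro φ hφ
      induction hφ using Submodule.span_induction with
      | mem φ h =>
        obtain ⟨k, rfl⟩ := h
        have := congrFun hxy k
        simp only [hv, Function.comp_apply, LinearMap.comp_apply, Submodule.subtype_apply,
          LinearMap.proj_apply, AddSubgroupClass.coe_sub, Pi.sub_apply]
        exact sub_eq_zero.mpr this
      | zero => rfl
      | add φ ψ _ _ h1 h2 => rw [LinearMap.add_apply, h1, h2, add_zero]
      | smul c φ _ h => rw [LinearMap.smul_apply, h, smul_zero]
    funext i
    have := h0 (v i) (Submodule.subset_span ⟨i, rfl⟩)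
    simpa [hv, sub_eq_zero] using this
  calc #{x ∈ Fintype.piFinset (fun _ : ι => S) | x ∈ W}
      ≤ #(Fintype.piFinset (fun _ : κ' => S)) := by
        apply Finset.card_le_card_of_injOn (fun (x : ι → F) (k : κ') => x (a k))
        · intro x hx
          simp only [coe_filter, Fintype.mem_piFinset, Set.mem_ofPred_eq] at hx
          simp only [Fintype.coe_piFinset, Set.mem_pi, Set.mem_univ, forall_const, mem_coe]
          intro k
          exact hx.1 (a k)
        · intro x hx y hy hxy
          simp only [coe_filter, Fintype.mem_piFinset, Set.mem_ofPred_eq] at hx hy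
          exact hinj hx.2 hy.2 hxy
    _ = #S ^ Fintype.card κ' := by rw [Fintype.card_piFinset]; simp
    _ ≤ #S ^ finrank F W := Nat.pow_le_pow_right hS.card_pos hcard

theorem eq_zero_of_mem_span {V : Type*} [AddCommGroup V] [Module F V] {s : Set (Dual F V)}
    {x : V} (h : ∀ φ ∈ s, φ x = 0) : ∀ φ ∈ Submodule.span F s, φ x = 0 := by
  intro φ hφ
  induction hφ using Submodule.span_induction with
  | mem φ h' => exact h φ h'
  | zero => rfl
  | add φ ψ _ _ h1 h2 => rw [LinearMap.add_apply, h1, h2, add_zero]
  | smul c φ _ h => rw [LinearMap.smul_apply, h, smul_zero]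

/-- at most `|S|^(N - r)` solutions in `S^N` of a system of `r` independent equations -/
theorem card_sol_le [DecidableEq F] (S : Finset F) (hS : S.Nonempty) {κ' : Type*} [Fintype κ']
    (ℓ : κ' → Dual F (ι → F)) (hl : LinearIndependent F ℓ) (Z : Finset κ') :
    #{x ∈ Fintype.piFinset (fun _ : ι => S) | ∀ k ∈ Z, ℓ k x = 0} * #S ^ #Z
      ≤ #S ^ Fintype.card ι := by
  classical
  set Ψ : Submodule F (Dual F (ι → F)) :=
    Submodule.span F (Set.range (ℓ ∘ fun k : Z => (k : κ'))) with hΨ
  have hΨr : finrank F Ψ = #Z := by
    rw [hΨ, finrank_span_eq_card (hl.comp (fun k : Z => (k : κ')) Subtype.coe_injective),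
      Fintype.card_coe]
  have hdim := Subspace.finrank_add_finrank_dualCoannihilator_eq Ψ
  rw [hΨr, Module.finrank_fintype_fun_eq_card] at hdim
  calc _ ≤ #{x ∈ Fintype.piFinset (fun _ : ι => S) | x ∈ Ψ.dualCoannihilator} * #S ^ #Z := by
        refine Nat.mul_le_mul_right _ (Finset.card_le_card fun x hx => ?_)
        simp only [mem_filter] at hx ⊢
        obtain ⟨hx1, hx2⟩ := hx
        refine ⟨hx1, ?_⟩
        rw [Submodule.mem_dualCoannihilator]
        apply eq_zero_of_mem_span
        rintro φ ⟨k, rfl⟩
        exact hx2 k k.2
    _ ≤ #S ^ finrank F Ψ.dualCoannihilator * #S ^ #Z :=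
        Nat.mul_le_mul_right _ (card_subspace_le S hS _)
    _ = #S ^ Fintype.card ι := by rw [← pow_add, ← hdim, add_comm]

omit [Fintype ι] [DecidableEq ι] [DecidableEq κ] in
/-- Structure of a linear system: some of the equations are independent and imply all. -/
theorem exists_indep_rows (M : (ι → F) →ₗ[F] (κ → F)) :
    ∃ J : Finset κ, LinearIndependent F
        (fun k : J => (LinearMap.proj (k : κ)).comp M : J → Dual F (ι → F)) ∧
      ∀ x, (∀ k ∈ J, M x k = 0) → M x = 0 := by
  classical
  set ρ : κ → Dual F (ι → F) := fun j => (LinearMap.proj j).comp M with hρ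
  obtain ⟨b, -, -, hspan, hli⟩ := exists_linearIndepOn_extension (v := ρ)
    (linearIndepOn_empty F ρ) (Set.empty_subset (Set.univ : Set κ))
  have hb : b.Finite := Set.toFinite b
  refine ⟨hb.toFinset, ?_, ?_⟩
  · have hli' : LinearIndependent F (fun k : b => ρ k) := hli
    refine hli'.comp (fun k : hb.toFinset => (⟨k, hb.mem_toFinset.mp k.2⟩ : b)) ?_
    intro x y h
    exact Subtype.ext (congrArg (fun z : b => (z : κ)) h)
  · intro x hx
    funext j
    have h1 : ρ j ∈ Submodule.span F (ρ '' b) := hspan ⟨j, Set.mem_univ j, rfl⟩
    refine eq_zero_of_mem_span (x := x) ?_ _ h1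
    rintro φ ⟨k, hk, rfl⟩
    exact hx k (hb.mem_toFinset.mpr hk)

theorem weighted_le [Fintype F] [DecidableEq F] (S : Finset F) (hS : S.Nonempty)
    (M : (ι → F) →ₗ[F] (κ → F)) {c : ℝ} (hc0 : 0 ≤ c) (hc1 : c ≤ 1) :
    ∃ r : ℕ, (#{x : ι → F | M x = 0} : ℝ) * (Fintype.card F : ℝ) ^ r =
        (Fintype.card F : ℝ) ^ Fintype.card ι ∧
      ∑ x ∈ Fintype.piFinset (fun _ : ι => S), ∏ j, (if M x j = 0 then (1 : ℝ) else c) ≤
        (#S : ℝ) ^ Fintype.card ι * (c + (1 - c) / #S) ^ r := by
  classical
  obtain ⟨J, hli, hJ⟩ := exists_indep_rows M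
  refine ⟨#J, ?_, ?_⟩
  · set Ψ : Submodule F (Dual F (ι → F)) :=
      Submodule.span F (Set.range (fun k : J => (LinearMap.proj (k : κ)).comp M)) with hΨ
    have hΨr : finrank F Ψ = #J := by
      rw [hΨ, finrank_span_eq_card hli, Fintype.card_coe]
    have hdim := Subspace.finrank_add_finrank_dualCoannihilator_eq Ψ
    rw [hΨr, Module.finrank_fintype_fun_eq_card] at hdim
    have hcard : #{x : ι → F | M x = 0} = Fintype.card Ψ.dualCoannihilator := by
      rw [Fintype.card_subtype]
      congr 1
      ext x
      simp only [mem_filter, mem_univ, true_and]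
      rw [Submodule.mem_dualCoannihilator]
      constructor
      · intro h
        apply eq_zero_of_mem_span
        rintro φ ⟨k, rfl⟩
        simp [h]
      · intro h
        apply hJ
        intro k hk
        exact h _ (Submodule.subset_span ⟨⟨k, hk⟩, rfl⟩)
    rw [hcard, card_eq_pow_finrank (K := F)]
    push_cast
    rw [← pow_add, add_comm, hdim]
  · have hSpos : (0 : ℝ) < #S := by exact_mod_cast hS.card_pos
    calc ∑ x ∈ Fintype.piFinset (fun _ : ι => S), ∏ j, (if M x j = 0 then (1 : ℝ) else c)
        ≤ ∑ x ∈ Fintype.piFinset (fun _ : ι => S),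
            ∏ j : J, (if M x j = 0 then (1 : ℝ) else c) := by
          apply Finset.sum_le_sum
          intro x _
          rw [Finset.prod_coe_sort J (fun j => if M x j = 0 then (1 : ℝ) else c),
            ← Finset.prod_mul_prod_compl J]
          apply mul_le_of_le_one_right
          · exact Finset.prod_nonneg fun j _ => by split_ifs <;> simp [hc0]
          · exact Finset.prod_le_one (fun j _ => by split_ifs <;> simp [hc0])
              (fun j _ => by split_ifs <;> simp [hc1])
      _ = ∑ x ∈ Fintype.piFinset (fun _ : ι => S), ∑ Z : Finset J,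
            (∏ j ∈ Z, (if M x j = 0 then (1 - c) else 0)) * c ^ (#J - #Z) := by
          apply Finset.sum_congr rfl
          intro x _
          have : ∀ j : J, (if M x j = 0 then (1 : ℝ) else c) =
              (if M x j = 0 then (1 - c) else 0) + c := by
            intro j; split_ifs <;> ring
          simp_rw [this]
          rw [Finset.prod_add]
          rw [Finset.powerset_univ]
          apply Finset.sum_congr rfl
          intro Z _
          rw [Finset.prod_const, Finset.card_sdiff_of_subset (Finset.subset_univ _)]
          simp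
      _ = ∑ Z : Finset J, (1 - c) ^ #Z * c ^ (#J - #Z) *
            #{x ∈ Fintype.piFinset (fun _ : ι => S) | ∀ k ∈ Z, M x k = 0} := by
          rw [Finset.sum_comm]
          apply Finset.sum_congr rfl
          intro Z _
          rw [← Finset.sum_mul, mul_right_comm]
          congr 1
          rw [Finset.card_filter]
          push_cast
          rw [Finset.mul_sum]
          apply Finset.sum_congr rfl
          intro x _
          split_ifs with h
          · rw [mul_one, Finset.prod_congr rfl (fun j hj => if_pos (h j hj)), Finset.prod_const]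
          · rw [mul_zero]
            push Not at h
            obtain ⟨k, hk, hk'⟩ := h
            exact Finset.prod_eq_zero hk (if_neg hk')
      _ ≤ ∑ Z : Finset J, (1 - c) ^ #Z * c ^ (#J - #Z) *
            ((#S : ℝ) ^ Fintype.card ι / (#S : ℝ) ^ #Z) := by
          apply Finset.sum_le_sum
          intro Z _
          apply mul_le_mul_of_nonneg_left
          · rw [le_div_iff₀ (by positivity)]
            have := card_sol_le S hS
              (fun k : J => (LinearMap.proj (k : κ)).comp M : J → Dual F (ι → F)) hli Z
            exact_mod_cast this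
          · have := sub_nonneg.mpr hc1
            positivity
      _ = (#S : ℝ) ^ Fintype.card ι * ∑ Z : Finset J, ((1 - c) / #S) ^ #Z * c ^ (#J - #Z) := by
          rw [Finset.mul_sum]
          apply Finset.sum_congr rfl
          intro Z _
          rw [div_pow]
          field_simp
      _ = (#S : ℝ) ^ Fintype.card ι * (c + (1 - c) / #S) ^ #J := by
          congr 1
          rw [add_comm c, ← Fintype.card_coe J, ← Finset.card_univ,
            ← Finset.prod_const, Finset.prod_add, Finset.powerset_univ]
          apply Finset.sum_congr rfl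
          intro Z _
          rw [Finset.prod_const, Finset.prod_const,
            Finset.card_sdiff_of_subset (Finset.subset_univ _)]

end Pool.Agent.H.MP_d91f4a_co
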