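import Pool.Agent.H.MP_d91f4a_co.Defs

/-!
# Elementary facts on partition rank
-/

namespace Pool.Agent.H.MP_d91f4a_co

open Finset Module

variable {p : ℕ} [Fact p.Prime] {d n : ℕ}

/-- Partition rank at most `card ι`, with an arbitrary finite index type. -/
theorem PRank.of_fintype {ι : Type*} [Fintype ι] (m : Form p d n) (I : ι → Finset (Fin d))
    (hI : ∀ k, (I k).Nonempty ∧ I k ≠ univ)
    (a : ∀ k, MultilinearMap (ZMod p) (fun _ : ↥(I k) => Fin n → ZMod p) (ZMod p))
    (b : ∀ k, MultilinearMap (ZMod p) (fun _ : ↥(I k)ᶜ => Fin n → ZMod p) (ZMod p))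
    (h : ∀ x, m x = ∑ k, a k (fun i => x i) * b k (fun i => x i)) :
    PRank m (Fintype.card ι) := by
  let e := (Fintype.equivFin ι).symm
  refine ⟨fun k => I (e k), fun k => hI _, fun k => a (e k), fun k => b (e k), fun x => ?_⟩
  rw [h x]
  exact (Equiv.sum_comp e (fun k => a k (fun i => x i) * b k (fun i => x i))).symm

theorem PRank.add {m₁ m₂ : Form p d n} {r₁ r₂ : ℕ} (h₁ : PRank m₁ r₁) (h₂ : PRank m₂ r₂) :
    PRank (m₁ + m₂) (r₁ + r₂) := by
  obtain ⟨I₁, hI₁, a₁, b₁, e₁⟩ := h₁
  obtain ⟨I₂, hI₂, a₂, b₂, e₂⟩ := h₂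
  have := PRank.of_fintype (ι := Fin r₁ ⊕ Fin r₂) (m₁ + m₂) (Sum.elim I₁ I₂)
    (by rintro (k | k); exacts [hI₁ k, hI₂ k])
    (fun k => match k with
      | Sum.inl k => a₁ k
      | Sum.inr k => a₂ k)
    (fun k => match k with
      | Sum.inl k => b₁ k
      | Sum.inr k => b₂ k)
    (by
      intro x
      rw [_root_.add_apply, e₁ x, e₂ x, Fintype.sum_sum_type]
      rfl)
  simpa using this

/-- Composition with a linear map of rank `r` in one coordinate has partition rank at most `r`. -/
theorem PRank.comp_lin (hd : 2 ≤ d) (m : Form p d n) (i : Fin d)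
    (κ : (Fin n → ZMod p) →ₗ[ZMod p] (Fin n → ZMod p)) (m' : Form p d n)
    (hm' : ∀ x, m' x = m (Function.update x i (κ (x i)))) :
    PRank m' (finrank (ZMod p) (LinearMap.range κ)) := by
  classical
  let bs := Module.finBasis (ZMod p) (LinearMap.range κ)
  let c : Fin (finrank (ZMod p) (LinearMap.range κ)) → (Fin n → ZMod p) := fun k => (bs k : Fin n → ZMod p)
  let ℓ : Fin (finrank (ZMod p) (LinearMap.range κ)) → ((Fin n → ZMod p) →ₗ[ZMod p] ZMod p) :=
    fun k => (bs.coord k) ∘ₗ κ.rangeRestrict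
  have hκ : ∀ v, κ v = ∑ k, ℓ k v • c k := by
    intro v
    have h := congrArg Subtype.val (bs.sum_repr (κ.rangeRestrict v))
    rw [AddSubmonoidClass.coe_finsetSum] at h
    exact h.symm
  have hne : ({i} : Finset (Fin d)) ≠ univ := by
    intro h
    have := congrArg Finset.card h
    simp at this
    omega
  have := PRank.of_fintype m' (fun _ : Fin (finrank (ZMod p) (LinearMap.range κ)) => {i})
    (fun k => ⟨Finset.singleton_nonempty i, hne⟩)
    (fun k => MultilinearMap.ofSubsingleton (ZMod p) (Fin n → ZMod p) (ZMod p)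
      (⟨i, Finset.mem_singleton_self i⟩ : ({i} : Finset (Fin d))) (ℓ k))
    (fun k => m.domDomRestrict (fun j => j ∈ ({i} : Finset (Fin d))ᶜ) (fun _ => c k))
    (by
      intro x
      rw [hm' x, hκ (x i)]
      have h1 : m (Function.update x i (∑ k, ℓ k (x i) • c k))
          = ∑ k, m (Function.update x i (ℓ k (x i) • c k)) :=
        map_sum (m.toLinearMap x i) (fun k => ℓ k (x i) • c k) Finset.univ
      rw [h1]
      refine Finset.sum_congr rfl (fun k _ => ?_)
      rw [m.map_update_smul, smul_eq_mul]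
      congr 1
      rw [MultilinearMap.domDomRestrict_apply]
      congr 1
      funext j
      by_cases hj : j = i
      · subst hj; simp
      · simp [hj])
  simpa using this

end Pool.Agent.H.MP_d91f4a_co
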