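import Pool.Agent.H.MP_d91f4a_co.Defs
import Pool.Agent.H.MP_d91f4a_co.Average

/-!
# Bias on a restricted alphabet is bounded by a power of the full bias
-/

namespace Pool.Agent.H.MP_d91f4a_co

open Finset Module

variable {p : ℕ} [Fact p.Prime] {e n : ℕ}

/-- `S^n` -/
abbrev cube (S : Finset (ZMod p)) (n : ℕ) : Finset (Fin n → ZMod p) :=
  Fintype.piFinset fun _ => S

theorem char_map_sum {ι : Type*} (s : Finset ι) (f : ι → ZMod p) :
    (ZMod.stdAddChar (∑ i ∈ s, f i) : ℂ) = ∏ i ∈ s, (ZMod.stdAddChar (f i) : ℂ) := by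
  classical
  induction s using Finset.induction_on with
  | empty => simp
  | insert a s ha ih => rw [Finset.sum_insert ha, Finset.prod_insert ha, AddChar.map_add_eq_mul, ih]

theorem norm_char (a : ZMod p) : ‖(ZMod.stdAddChar a : ℂ)‖ = 1 := by
  simp

/-- the vector `(m(e_i, x_2, ..., x_d))_i` -/
def slice (m : Form p (e + 1) n) (x : Fin (e + 1) → Fin n → ZMod p) (i : Fin n) : ZMod p :=
  m (Function.update x 0 (Pi.single i 1))

theorem slice_insert (m : Form p (e + 1) n) (y : Fin e → Fin n → ZMod p)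
    (a b : Fin n → ZMod p) :
    slice m ((0 : Fin (e + 1)).insertNth a y) = slice m ((0 : Fin (e + 1)).insertNth b y) := by
  funext i
  simp [slice]

theorem form_insert (m : Form p (e + 1) n) (y : Fin e → Fin n → ZMod p)
    (a : Fin n → ZMod p) :
    m ((0 : Fin (e + 1)).insertNth a y) =
      ∑ i, a i * slice m ((0 : Fin (e + 1)).insertNth 0 y) i := by
  have h := pi_eq_sum_univ' a
  set x0 : Fin (e + 1) → Fin n → ZMod p := (0 : Fin (e + 1)).insertNth 0 y with hx0
  have h1 : ∀ b : Fin n → ZMod p, (0 : Fin (e + 1)).insertNth b y = Function.update x0 0 b := by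
    intro b; rw [hx0]; simp
  rw [h1 a]
  have h2 := congrArg (m.toLinearMap x0 0) h
  rw [map_sum] at h2
  simp only [MultilinearMap.toLinearMap_apply, map_smul, smul_eq_mul] at h2
  rw [h2]
  apply Finset.sum_congr rfl
  intro i _
  congr 1

/-- sum of the character over the first variable -/
theorem char_sum (m : Form p (e + 1) n) (t : ZMod p) (S : Finset (ZMod p))
    (y : Fin e → Fin n → ZMod p) :
    ∑ a ∈ cube S n, (ZMod.stdAddChar (t * m ((0 : Fin (e + 1)).insertNth a y)) : ℂ) =
      ∏ i, ∑ s ∈ S, (ZMod.stdAddChar (t * (s * slice m ((0 : Fin (e + 1)).insertNth 0 y) i)) : ℂ) := by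
  rw [Finset.prod_univ_sum]
  apply Finset.sum_congr rfl
  intro a _
  rw [form_insert, Finset.mul_sum, char_map_sum]

/-- the weight `c^(number of nonzero entries of the slice)` -/
def wt (m : Form p (e + 1) n) (c : ℝ) (x : Fin (e + 1) → Fin n → ZMod p) : ℝ :=
  ∏ i, if slice m x i = 0 then (1 : ℝ) else c

theorem wt_nonneg (m : Form p (e + 1) n) {c : ℝ} (hc : 0 ≤ c) (x) : 0 ≤ wt m c x :=
  Finset.prod_nonneg fun i _ => by split_ifs <;> simp [hc]

theorem wt_zero (m : Form p (e + 1) n) (x) :
    wt m 0 x = if slice m x = 0 then (1 : ℝ) else 0 := by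
  rw [wt]
  split_ifs with h
  · exact Finset.prod_eq_one fun i _ => if_pos (congrFun h i)
  · have : ∃ i, slice m x i ≠ 0 := by
      by_contra hh
      push Not at hh
      exact h (funext hh)
    obtain ⟨i, hi⟩ := this
    exact Finset.prod_eq_zero (mem_univ i) (if_neg hi)

theorem exists_char_bound (S : Finset (ZMod p)) (hS : 2 ≤ #S) :
    ∃ c : ℝ, 0 ≤ c ∧ c < 1 ∧ ∀ b : ZMod p, b ≠ 0 →
      ‖∑ s ∈ S, (ZMod.stdAddChar (b * s) : ℂ)‖ ≤ c * #S := by
  have hSpos : (0 : ℝ) < #S := by
    have : 0 < #S := by omega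
    exact_mod_cast this
  have hlt : ∀ b : ZMod p, b ≠ 0 → ‖∑ s ∈ S, (ZMod.stdAddChar (b * s) : ℂ)‖ < #S := by
    intro b hb
    obtain ⟨s1, h1, s2, h2, h12⟩ := Finset.one_lt_card.mp (by omega : 1 < #S)
    have h2' : s2 ∈ S.erase s1 := Finset.mem_erase.mpr ⟨h12.symm, h2⟩
    rw [← Finset.add_sum_erase S _ h1, ← Finset.add_sum_erase (S.erase s1) _ h2', ← add_assoc]
    have hne : (ZMod.stdAddChar (b * s1) : ℂ) ≠ ZMod.stdAddChar (b * s2) := by
      intro h
      have := ZMod.injective_stdAddChar h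
      exact h12 (mul_left_cancel₀ hb this)
    have hstrict : ‖(ZMod.stdAddChar (b * s1) : ℂ) + ZMod.stdAddChar (b * s2)‖ < 2 := by
      have h3 : ‖(ZMod.stdAddChar (b * s1) : ℂ)‖ = ‖(ZMod.stdAddChar (b * s2) : ℂ)‖ := by
        rw [norm_char, norm_char]
      refine lt_of_le_of_ne ((norm_add_le _ _).trans ?_) ?_
      · rw [norm_char, norm_char]; norm_num
      · intro h
        apply hne
        rw [← sameRay_iff_of_norm_eq h3, sameRay_iff_norm_add, h, norm_char, norm_char]
        norm_num
    have hrest : ‖∑ s ∈ (S.erase s1).erase s2, (ZMod.stdAddChar (b * s) : ℂ)‖ ≤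
        #((S.erase s1).erase s2) := by
      refine (norm_sum_le _ _).trans ?_
      simp
    have hcard : (#((S.erase s1).erase s2) : ℝ) = #S - 2 := by
      rw [Finset.card_erase_of_mem h2', Finset.card_erase_of_mem h1, Nat.sub_sub,
        Nat.cast_sub hS]
      norm_num
    calc _ ≤ _ := norm_add_le _ _
      _ < 2 + (#S - 2 : ℝ) := by
        rw [← hcard]
        exact add_lt_add_of_lt_of_le hstrict hrest
      _ = #S := by ring
  obtain ⟨b0, hb0, hmax⟩ := Finset.exists_max_image ((univ : Finset (ZMod p)).erase 0)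
    (fun b => ‖∑ s ∈ S, (ZMod.stdAddChar (b * s) : ℂ)‖) ⟨1, by simp⟩
  refine ⟨‖∑ s ∈ S, (ZMod.stdAddChar (b0 * s) : ℂ)‖ / #S, by positivity, ?_, ?_⟩
  · rw [div_lt_one hSpos]
    exact hlt b0 (by simpa using hb0)
  · intro b hb
    rw [div_mul_cancel₀ _ hSpos.ne']
    exact hmax b (by simpa using hb)

/-- First step: the first variable is averaged out. -/
theorem norm_bias_le (m : Form p (e + 1) n) (S : Finset (ZMod p)) (hS : S.Nonempty) {c : ℝ}
    (hc : ∀ b : ZMod p, b ≠ 0 → ‖∑ s ∈ S, (ZMod.stdAddChar (b * s) : ℂ)‖ ≤ c * #S)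
    (t : ZMod p) (ht : t ≠ 0) :
    ‖bias t S m‖ ≤ av (fun _ => cube S n) (wt m c) := by
  have hSpos : (0 : ℝ) < #S := by exact_mod_cast hS.card_pos
  rw [bias, av, norm_div, Complex.norm_natCast, box]
  refine div_le_div_of_nonneg_right ?_ (by positivity)
  rw [sum_box _ 0, sum_box _ 0]
  refine (norm_sum_le _ _).trans (Finset.sum_le_sum fun y _ => ?_)
  rw [char_sum, norm_prod]
  calc ∏ i, ‖∑ s ∈ S, (ZMod.stdAddChar (t * (s * slice m ((0 : Fin (e + 1)).insertNth 0 y) i)) : ℂ)‖
      ≤ ∏ i, ((#S : ℝ) * if slice m ((0 : Fin (e + 1)).insertNth 0 y) i = 0 then (1 : ℝ) else c) := by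
        apply Finset.prod_le_prod (fun _ _ => norm_nonneg _)
        intro i _
        split_ifs with h
        · rw [h]
          simp
        · have h1 := hc (t * slice m ((0 : Fin (e + 1)).insertNth 0 y) i) (mul_ne_zero ht h)
          rw [mul_comm (#S : ℝ)]
          refine le_trans (le_of_eq ?_) h1
          congr 1
          apply Finset.sum_congr rfl
          intro s _
          congr 1
          ring
    _ = ∑ a ∈ cube S n, wt m c ((0 : Fin (e + 1)).insertNth a y) := by
        rw [Finset.prod_mul_distrib, Finset.prod_const, Finset.card_univ, Fintype.card_fin]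
        have : ∀ a : Fin n → ZMod p, wt m c ((0 : Fin (e + 1)).insertNth a y) =
            wt m c ((0 : Fin (e + 1)).insertNth 0 y) := by
          intro a
          rw [wt, wt, slice_insert m y a 0]
        rw [Finset.sum_congr rfl fun a _ => this a, Finset.sum_const, Fintype.card_piFinset]
        simp [wt]

/-- the slice as a linear function of one of the other variables -/
noncomputable def sliceMap (m : Form p (e + 1) n) (j : Fin (e + 1)) (y : Fin e → Fin n → ZMod p) :
    (Fin n → ZMod p) →ₗ[ZMod p] (Fin n → ZMod p) :=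
  LinearMap.pi fun i => m.toLinearMap
    (Function.update (j.insertNth (0 : Fin n → ZMod p) y) 0 (Pi.single i 1)) j

theorem sliceMap_apply (m : Form p (e + 1) n) {j : Fin (e + 1)} (hj : j ≠ 0)
    (y : Fin e → Fin n → ZMod p) (a : Fin n → ZMod p) :
    sliceMap m j y a = slice m (j.insertNth a y) := by
  funext i
  have h1 : (j.insertNth a y : Fin (e + 1) → Fin n → ZMod p) =
      Function.update (j.insertNth 0 y) j a := by simp
  rw [sliceMap, LinearMap.pi_apply, MultilinearMap.toLinearMap_apply, slice, h1,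
    Function.update_comm hj]

/-- weighted averages over one variable other than the first -/
theorem wt_avg_le (m : Form p (e + 1) n) (S : Finset (ZMod p)) (hS : S.Nonempty) {c : ℝ}
    (hc0 : 0 ≤ c) (hc1 : c ≤ 1) {j : Fin (e + 1)} (hj : j ≠ 0) (y : Fin e → Fin n → ZMod p) :
    (∑ a ∈ cube S n, wt m c (j.insertNth a y)) / #(cube S n) ≤
      ((∑ b ∈ (univ : Finset (Fin n → ZMod p)), wt m 0 (j.insertNth b y)) /
        #(univ : Finset (Fin n → ZMod p))) ^ expo p #S c := by
  have h := average_le S hS (sliceMap m j y) hc0 hc1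
  rw [ZMod.card] at h
  refine le_trans (le_of_eq ?_) (h.trans (le_of_eq ?_))
  · congr 1
    apply Finset.sum_congr rfl
    intro a _
    rw [wt]
    simp_rw [sliceMap_apply m hj]
  · congr 2
    rw [Finset.card_filter]
    push_cast
    apply Finset.sum_congr rfl
    intro b _
    rw [wt_zero, sliceMap_apply m hj]

theorem wt_avg_le_first (m : Form p (e + 1) n) (S : Finset (ZMod p)) (hS : 2 ≤ #S)
    (y : Fin e → Fin n → ZMod p) :
    (∑ a ∈ cube S n, wt m 0 ((0 : Fin (e + 1)).insertNth a y)) / #(cube S n) ≤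
      ((∑ b ∈ (univ : Finset (Fin n → ZMod p)), wt m 0 ((0 : Fin (e + 1)).insertNth b y)) /
        #(univ : Finset (Fin n → ZMod p))) ^ expo p #S 0 := by
  have hp : 2 ≤ p := (Fact.out : p.Prime).two_le
  have hne : (cube S n).Nonempty := Fintype.piFinset_nonempty.mpr fun _ =>
    Finset.card_pos.mp (by omega)
  have hpos : (0 : ℝ) < #(cube S n) := by exact_mod_cast hne.card_pos
  have hpos' : (0 : ℝ) < #(univ : Finset (Fin n → ZMod p)) := by
    exact_mod_cast Finset.card_pos.mpr univ_nonempty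
  have h1 : ∀ a : Fin n → ZMod p, wt m 0 ((0 : Fin (e + 1)).insertNth a y) =
      wt m 0 ((0 : Fin (e + 1)).insertNth 0 y) := by
    intro a
    rw [wt, wt, slice_insert m y a 0]
  rw [Finset.sum_congr rfl fun a _ => h1 a, Finset.sum_congr rfl fun a _ => h1 a,
    Finset.sum_const, Finset.sum_const, nsmul_eq_mul, nsmul_eq_mul, mul_div_cancel_left₀ _ hpos.ne',
    mul_div_cancel_left₀ _ hpos'.ne', wt_zero]
  split_ifs
  · simp
  · rw [Real.zero_rpow (expo_pos hp hS le_rfl zero_lt_one).ne']

/-- passing from `S` to the whole field in all variables -/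
theorem av_wt_le (m : Form p (e + 1) n) (S : Finset (ZMod p)) (hS : 2 ≤ #S) (k : ℕ) :
    ∀ J : Finset (Fin (e + 1)), #(univ \ J) = k →
      av (fun i => if i ∈ J then univ else cube S n) (wt m 0) ≤
        (av (fun _ => univ) (wt m 0)) ^ (expo p #S 0 ^ k) := by
  have hp : 2 ≤ p := (Fact.out : p.Prime).two_le
  have hSp : #S ≤ p := by
    simpa [ZMod.card] using Finset.card_le_univ S
  have hne : (cube S n).Nonempty := Fintype.piFinset_nonempty.mpr fun _ =>
    Finset.card_pos.mp (by omega)
  have hpos := expo_pos hp hS le_rfl zero_lt_one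
  have hle := expo_le_one hp (by omega : 1 ≤ #S) hSp le_rfl (zero_le_one (α := ℝ))
  have hav : ∀ T : Fin (e + 1) → Finset (Fin n → ZMod p), 0 ≤ av T (wt m 0) := fun T =>
    div_nonneg (Finset.sum_nonneg fun x _ => wt_nonneg m le_rfl x) (by positivity)
  induction k with
  | zero =>
    intro J hJ
    rw [Finset.card_eq_zero, Finset.sdiff_eq_empty_iff_subset, Finset.univ_subset_iff] at hJ
    subst hJ
    simp
  | succ k ih =>
    intro J hJ
    obtain ⟨j, hj⟩ := Finset.card_pos.mp (by omega : 0 < #(univ \ J))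
    have hjJ : j ∉ J := by simpa using hj
    set T : Fin (e + 1) → Finset (Fin n → ZMod p) := fun i => if i ∈ J then univ else cube S n
      with hT
    have h1 : Function.update T j (cube S n) = T := by
      rw [Function.update_eq_self_iff, hT]; simp [hjJ]
    have h2 : Function.update T j univ = fun i => if i ∈ insert j J then univ else cube S n := by
      funext i
      by_cases hij : i = j
      · subst hij; simp
      · simp [hij, hT]
    have h3 := av_replace T (fun i => by rw [hT]; dsimp only; split_ifs; exacts [univ_nonempty, hne])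
      j (cube S n) univ (wt m 0) (wt m 0) (wt_nonneg m le_rfl) hpos.le hle (by
        intro y
        by_cases hj0 : j = 0
        · subst hj0
          exact wt_avg_le_first m S hS y
        · exact wt_avg_le m S (Finset.card_pos.mp (by omega)) le_rfl zero_le_one hj0 y)
    rw [h1, h2] at h3
    have h4 := ih (insert j J) (by
      have : univ \ insert j J = (univ \ J).erase j := by
        ext i; simp [not_or]
      rw [this, Finset.card_erase_of_mem hj]; omega)
    calc av T (wt m 0) ≤ _ := h3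
      _ ≤ ((av (fun _ => univ) (wt m 0)) ^ (expo p #S 0 ^ k)) ^ expo p #S 0 :=
          Real.rpow_le_rpow (hav _) h4 hpos.le
      _ = _ := by rw [← Real.rpow_mul (hav _), pow_succ]

theorem sum_char (b : ZMod p) :
    ∑ s : ZMod p, (ZMod.stdAddChar (b * s) : ℂ) = if b = 0 then (p : ℂ) else 0 := by
  split_ifs with h
  · subst h; simp [ZMod.card]
  · have := AddChar.sum_mulShift b (ZMod.isPrimitive_stdAddChar p)
    rw [if_neg h, Nat.cast_zero] at this
    rw [← this]
    apply Finset.sum_congr rfl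
    intro s _
    rw [mul_comm]

/-- over the whole field the bias is the proportion of `x` with vanishing slice -/
theorem bias_univ (m : Form p (e + 1) n) (t : ZMod p) (ht : t ≠ 0) :
    bias t univ m = ((av (fun _ => univ) (wt m 0) : ℝ) : ℂ) := by
  rw [bias, av, box]
  simp only [Fintype.piFinset_univ]
  push_cast
  congr 1
  have hu : (univ : Finset (Fin (e + 1) → Fin n → ZMod p)) =
      Fintype.piFinset fun _ => (univ : Finset (Fin n → ZMod p)) := by simp
  rw [hu, sum_box _ 0, sum_box _ 0]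
  apply Finset.sum_congr rfl
  intro y _
  have h1 := char_sum m t univ y
  simp only [cube, Fintype.piFinset_univ] at h1
  rw [h1]
  have h2 : ∀ a : Fin n → ZMod p, ((wt m 0 ((0 : Fin (e + 1)).insertNth a y) : ℝ) : ℂ) =
      ((wt m 0 ((0 : Fin (e + 1)).insertNth 0 y) : ℝ) : ℂ) := by
    intro a
    rw [wt, wt, slice_insert m y a 0]
  rw [Finset.sum_congr rfl fun a _ => h2 a, Finset.sum_const, Finset.card_univ, nsmul_eq_mul, wt]
  push_cast
  rw [Fintype.card_fun, Fintype.card_fin, ZMod.card]
  push_cast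
  have hpn : (p : ℂ) ^ n = ∏ _i : Fin n, (p : ℂ) := by simp
  rw [hpn, ← Finset.prod_mul_distrib]
  apply Finset.prod_congr rfl
  intro i _
  have h3 : ∑ s : ZMod p, (ZMod.stdAddChar (t * (s * slice m ((0 : Fin (e + 1)).insertNth 0 y) i)) : ℂ)
      = ∑ s : ZMod p,
        (ZMod.stdAddChar ((t * slice m ((0 : Fin (e + 1)).insertNth 0 y) i) * s) : ℂ) := by
    apply Finset.sum_congr rfl
    intro s _
    congr 1
    ring
  rw [h3, sum_char]
  generalize slice m ((0 : Fin (e + 1)).insertNth 0 y) i = z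
  by_cases h : z = 0
  · simp [h]
  · simp [h, ht]

theorem av_wt_nonneg (m : Form p (e + 1) n) {c : ℝ} (hc : 0 ≤ c)
    (T : Fin (e + 1) → Finset (Fin n → ZMod p)) : 0 ≤ av T (wt m c) :=
  div_nonneg (Finset.sum_nonneg fun x _ => wt_nonneg m hc x) (by positivity)

theorem norm_bias_univ (m : Form p (e + 1) n) (t : ZMod p) (ht : t ≠ 0) :
    ‖bias t univ m‖ = av (fun _ => univ) (wt m 0) := by
  rw [bias_univ m t ht, Complex.norm_real, Real.norm_of_nonneg (av_wt_nonneg m le_rfl _)]

theorem norm_bias_univ_pos (m : Form p (e + 2) n) : 0 < ‖bias 1 univ m‖ := by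
  rw [norm_bias_univ m 1 one_ne_zero, av]
  apply div_pos
  · apply Finset.sum_pos' (fun x _ => wt_nonneg m le_rfl x)
    refine ⟨0, by simp, ?_⟩
    rw [wt_zero, if_pos]
    · exact one_pos
    · funext i
      rw [slice]
      apply m.map_coord_zero (1 : Fin (e + 2))
      simp
  · exact_mod_cast Finset.card_pos.mpr (by simp)

/-- Main inequality, with explicit exponent. -/
theorem bias_le_explicit (e : ℕ) (S : Finset (ZMod p)) (hS : 2 ≤ #S) {c : ℝ} (hc0 : 0 ≤ c)
    (hc1 : c < 1)
    (hc : ∀ b : ZMod p, b ≠ 0 → ‖∑ s ∈ S, (ZMod.stdAddChar (b * s) : ℂ)‖ ≤ c * #S)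
    (n : ℕ) (m : Form p (e + 2) n) (t : ZMod p) (ht : t ≠ 0) :
    ‖bias t S m‖ ≤ ‖bias 1 univ m‖ ^ (expo p #S 0 ^ (e + 1) * expo p #S c) := by
  have hp : 2 ≤ p := (Fact.out : p.Prime).two_le
  have hSne : S.Nonempty := Finset.card_pos.mp (by omega)
  have hSp : #S ≤ p := by
    simpa [ZMod.card] using Finset.card_le_univ S
  have h0 := expo_pos hp hS hc0 hc1
  have h1 := expo_le_one hp (by omega : 1 ≤ #S) hSp hc0 hc1.le
  have hne : (cube S n).Nonempty := Fintype.piFinset_nonempty.mpr fun _ => hSne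
  have h3 := av_replace (fun _ : Fin (e + 2) => cube S n) (fun _ => hne) 1 (cube S n) univ
    (wt m c) (wt m 0) (wt_nonneg m le_rfl) h0.le h1
    (fun y => wt_avg_le m S hSne hc0 hc1.le one_ne_zero y)
  have h4 : Function.update (fun _ : Fin (e + 2) => cube S n) 1 (cube S n) =
      fun _ => cube S n := by simp
  have h5 : Function.update (fun _ : Fin (e + 2) => cube S n) 1 univ =
      fun i => if i ∈ ({1} : Finset (Fin (e + 2))) then univ else cube S n := by
    funext i
    by_cases hi : i = 1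
    · subst hi; simp
    · simp [hi]
  rw [h4, h5] at h3
  have h6 := av_wt_le m S hS (e + 1) {1} (by
    rw [Finset.card_sdiff_of_subset (Finset.subset_univ _)]; simp)
  calc ‖bias t S m‖ ≤ av (fun _ => cube S n) (wt m c) := norm_bias_le m S hSne hc t ht
    _ ≤ _ := h3
    _ ≤ ((av (fun _ => univ) (wt m 0)) ^ (expo p #S 0 ^ (e + 1))) ^ expo p #S c :=
        Real.rpow_le_rpow (av_wt_nonneg m le_rfl _) h6 h0.le
    _ = _ := by
        rw [← Real.rpow_mul (av_wt_nonneg m le_rfl _), norm_bias_univ m 1 one_ne_zero]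

/-- Main inequality. -/
theorem bias_le (e : ℕ) (S : Finset (ZMod p)) (hS : 2 ≤ #S) :
    ∃ θ : ℝ, 0 < θ ∧ ∀ (n : ℕ) (m : Form p (e + 2) n) (t : ZMod p), t ≠ 0 →
      ‖bias t S m‖ ≤ ‖bias 1 univ m‖ ^ θ := by
  obtain ⟨c, hc0, hc1, hc⟩ := exists_char_bound S hS
  have hp : 2 ≤ p := (Fact.out : p.Prime).two_le
  have h0 := expo_pos hp hS hc0 hc1
  have h2 := expo_pos hp hS le_rfl zero_lt_one
  exact ⟨expo p #S 0 ^ (e + 1) * expo p #S c, by positivity,
    fun n m t ht => bias_le_explicit e S hS hc0 hc1 hc n m t ht⟩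

end Pool.Agent.H.MP_d91f4a_co
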