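import Pool.Agent.H.MP_d91f4a_co.Trilin
import Pool.Agent.H.MP_d91f4a_co.PRankLemmas
import Pool.Agent.H.MP_d91f4a_co.Reduction

/-!
# Partition rank is at most 12 times analytic rank for trilinear forms over `F_p`
-/

namespace Pool.Agent.H.MP_d91f4a_co

open Finset Module

variable {p : ℕ} [Fact p.Prime] {n : ℕ}

lemma upd1 {V : Type*} (a b c x : V) : Function.update ![a, b, c] 1 x = ![a, x, c] := by
  funext i; fin_cases i <;> rfl

lemma upd2 {V : Type*} (a b c x : V) : Function.update ![a, b, c] 2 x = ![a, b, x] := by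
  funext i; fin_cases i <;> rfl

lemma upd0 {V : Type*} (a b c x : V) : Function.update ![a, b, c] 0 x = ![x, b, c] := by
  funext i; fin_cases i <;> rfl

/-- The bilinear map `(x, y) ↦ (m(e_i, x, y))_i`. -/
def toBilin (m : Form p 3 n) :
    (Fin n → ZMod p) →ₗ[ZMod p] (Fin n → ZMod p) →ₗ[ZMod p] (Fin n → ZMod p) :=
  LinearMap.mk₂ (ZMod p) (fun x y i => m ![Pi.single i 1, x, y])
    (by
      intro x x' y; funext i
      have := m.map_update_add ![Pi.single i 1, 0, y] 1 x x'
      rwa [upd1, upd1, upd1] at this)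
    (by
      intro c x y; funext i
      have := m.map_update_smul ![Pi.single i 1, 0, y] 1 c x
      rwa [upd1, upd1] at this)
    (by
      intro x y y'; funext i
      have := m.map_update_add ![Pi.single i 1, x, 0] 2 y y'
      rwa [upd2, upd2, upd2] at this)
    (by
      intro c x y; funext i
      have := m.map_update_smul ![Pi.single i 1, x, 0] 2 c y
      rwa [upd2, upd2] at this)

lemma toBilin_apply (m : Form p 3 n) (x y : Fin n → ZMod p) (i : Fin n) :
    toBilin m x y i = m ![Pi.single i 1, x, y] := rfl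

lemma form_eq (m : Form p 3 n) (z x y : Fin n → ZMod p) :
    m ![z, x, y] = ∑ i, z i * toBilin m x y i := by
  have h := pi_eq_sum_univ' z
  have h2 := congrArg (m.toLinearMap ![0, x, y] 0) h
  rw [map_sum] at h2
  simp only [MultilinearMap.toLinearMap_apply, map_smul, smul_eq_mul, upd0] at h2
  rw [h2]
  rfl

lemma slice_eq (m : Form p 3 n) (x : Fin 3 → Fin n → ZMod p) :
    slice m x = toBilin m (x 1) (x 2) := by
  funext i
  rw [slice, toBilin_apply]
  congr 1
  funext j; fin_cases j <;> rfl

lemma sum_fin3 {V : Type*} [Fintype V] (F : V → V → ℝ) :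
    ∑ x : Fin 3 → V, F (x 1) (x 2) = Fintype.card V * ∑ a, ∑ b, F a b := by
  rw [← (Fin.insertNthEquiv (fun _ : Fin 3 => V) 0).sum_comp, Fintype.sum_prod_type]
  rw [Finset.sum_congr rfl (g := fun _ => ∑ a, ∑ b, F a b)]
  · rw [Finset.sum_const, Finset.card_univ, nsmul_eq_mul]
  · intro z _
    rw [← (finTwoArrowEquiv V).symm.sum_comp, Fintype.sum_prod_type]
    rfl

lemma bias_eq_beta (m : Form p 3 n) : ‖bias 1 univ m‖ = MPd91f4a.beta (toBilin m) := by
  classical
  rw [norm_bias_univ m 1 one_ne_zero, av, MPd91f4a.beta_eq_count]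
  have h1 : ∀ x, wt m 0 x = if toBilin m (x 1) (x 2) = 0 then (1 : ℝ) else 0 := by
    intro x
    rw [wt_zero, slice_eq]
  simp only [Fintype.piFinset_univ, h1]
  rw [sum_fin3 (fun a b => if toBilin m a b = 0 then (1 : ℝ) else 0)]
  have hV : (0 : ℝ) < Fintype.card (Fin n → ZMod p) := by exact_mod_cast Fintype.card_pos
  have hc : ((univ : Finset (Fin 3 → Fin n → ZMod p)).card : ℝ)
      = (Fintype.card (Fin n → ZMod p) : ℝ) ^ 3 := by
    rw [Finset.card_univ, Fintype.card_fun, Fintype.card_fin]; push_cast; rfl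
  rw [hc]
  field_simp

/-- Composition with a linear map in one coordinate. -/
noncomputable def compAt {d : ℕ} (m : Form p d n) (i : Fin d)
    (κ : (Fin n → ZMod p) →ₗ[ZMod p] (Fin n → ZMod p)) : Form p d n :=
  m.compLinearMap (fun j => if j = i then κ else LinearMap.id)

lemma compAt_apply {d : ℕ} (m : Form p d n) (i : Fin d)
    (κ : (Fin n → ZMod p) →ₗ[ZMod p] (Fin n → ZMod p)) (x : Fin d → Fin n → ZMod p) :
    compAt m i κ x = m (Function.update x i (κ (x i))) := by
  rw [compAt, MultilinearMap.compLinearMap_apply]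
  congr 1
  funext j
  by_cases hj : j = i
  · subst hj; simp
  · simp [hj]

lemma compAt_add {d : ℕ} (m : Form p d n) (i : Fin d)
    (κ π : (Fin n → ZMod p) →ₗ[ZMod p] (Fin n → ZMod p)) (h : κ + π = LinearMap.id) :
    m = compAt m i κ + compAt m i π := by
  refine MultilinearMap.ext (fun x => ?_)
  rw [_root_.add_apply, compAt_apply, compAt_apply, ← m.map_update_add]
  have : κ (x i) + π (x i) = x i := by
    have := congrArg (fun g => g (x i)) h
    simpa using this
  rw [this, Function.update_eq_self]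

/-- A projection onto `U` with complementary map of rank `codim U`. -/
lemma exists_proj (U : Submodule (ZMod p) (Fin n → ZMod p)) :
    ∃ κ π : (Fin n → ZMod p) →ₗ[ZMod p] (Fin n → ZMod p), κ + π = LinearMap.id ∧
      (∀ x, π x ∈ U) ∧ (∀ x ∈ U, π x = x) ∧
      finrank (ZMod p) (LinearMap.range κ) + finrank (ZMod p) U = n := by
  obtain ⟨g, hg⟩ := U.subtype.exists_leftInverse_of_injective U.ker_subtype
  refine ⟨LinearMap.id - U.subtype ∘ₗ g, U.subtype ∘ₗ g, by abel, fun x => (g x).2, ?_, ?_⟩
  · intro x hx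
    have := congrArg (fun h => h ⟨x, hx⟩) hg
    have h2 : g x = ⟨x, hx⟩ := this
    rw [LinearMap.comp_apply, h2]; rfl
  · have hk : LinearMap.ker (LinearMap.id - U.subtype ∘ₗ g) = U := by
      ext x
      rw [LinearMap.mem_ker, LinearMap.sub_apply, sub_eq_zero]
      constructor
      · intro h
        have : x = (g x : Fin n → ZMod p) := h
        rw [this]; exact (g x).2
      · intro hx
        have := congrArg (fun h => h ⟨x, hx⟩) hg
        have h2 : g x = ⟨x, hx⟩ := this
        rw [LinearMap.comp_apply, h2]; rfl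
    have := LinearMap.finrank_range_add_finrank_ker (LinearMap.id - U.subtype ∘ₗ g)
    rw [hk] at this
    simpa using this

/-- Transposed projection: a map `Q` of rank at most `dim W` with `Qz · w = z · w` on `W`. -/
lemma exists_coproj (W : Submodule (ZMod p) (Fin n → ZMod p)) :
    ∃ Q : (Fin n → ZMod p) →ₗ[ZMod p] (Fin n → ZMod p),
      (∀ z, ∀ w ∈ W, ∑ i, Q z i * w i = ∑ i, z i * w i) ∧
      finrank (ZMod p) (LinearMap.range Q) ≤ finrank (ZMod p) W := by
  obtain ⟨g, hg⟩ := W.subtype.exists_leftInverse_of_injective W.ker_subtype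
  set P : (Fin n → ZMod p) →ₗ[ZMod p] (Fin n → ZMod p) := W.subtype ∘ₗ g with hP
  set M := LinearMap.toMatrix' P with hM
  have hMP : ∀ w, M.mulVec w = P w := fun w => by
    rw [hM, LinearMap.toMatrix'_mulVec]
  refine ⟨M.transpose.mulVecLin, ?_, ?_⟩
  · intro z w hw
    have h1 : P w = w := by
      have := congrArg (fun h => h ⟨w, hw⟩) hg
      have h2 : g w = ⟨w, hw⟩ := this
      rw [hP, LinearMap.comp_apply, h2]; rfl
    have h2 : (M.transpose.mulVec z) ⬝ᵥ w = z ⬝ᵥ w := by
      rw [Matrix.mulVec_transpose, ← Matrix.dotProduct_mulVec, hMP, h1]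
    exact h2
  · have h1 : finrank (ZMod p) (LinearMap.range M.transpose.mulVecLin) = M.rank := by
      rw [← Matrix.rank_transpose]; rfl
    rw [h1, Matrix.rank]
    have h2 : M.mulVecLin = P := by
      refine LinearMap.ext (fun w => ?_)
      rw [Matrix.mulVecLin_apply, hMP]
    rw [h2]
    have h3 : LinearMap.range P ≤ W := by
      rintro _ ⟨x, rfl⟩
      exact (g x).2
    exact Submodule.finrank_mono h3

/-- Partition rank is at most `12` times analytic rank for trilinear forms over `F_p`. -/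
theorem prank_le_three (m : Form p 3 n) : PRankLE m (12 * ar m) := by
  classical
  have hp : p.Prime := Fact.out
  obtain ⟨U₁, U₂, W₀, h0, h1⟩ := MPd91f4a.struct_all (R := ZMod p)
    (Nat.card (Fin n → ZMod p)) (Fin n → ZMod p) (Fin n → ZMod p) (Fin n → ZMod p)
    (toBilin m) le_rfl
  obtain ⟨κ₁, π₁, e1, u1, -, r1⟩ := exists_proj U₁
  obtain ⟨κ₂, π₂, e2, u2, -, r2⟩ := exists_proj U₂
  obtain ⟨Q, hQ, r3⟩ := exists_coproj W₀
  set M1 := compAt m 1 π₁ with hM1
  set M2 := compAt M1 2 π₂ with hM2
  have s1 : m = compAt m 1 κ₁ + M1 := compAt_add m 1 κ₁ π₁ e1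
  have s2 : M1 = compAt M1 2 κ₂ + M2 := compAt_add M1 2 κ₂ π₂ e2
  have s3 : ∀ x, M2 x = M2 (Function.update x 0 (Q (x 0))) := by
    intro x
    have key : ∀ z x y, M2 ![z, x, y] = ∑ i, z i * toBilin m (π₁ x) (π₂ y) i := by
      intro z x y
      rw [hM2, compAt_apply, upd2, hM1, compAt_apply, upd1]
      exact form_eq m z (π₁ x) (π₂ y)
    have hx : x = ![x 0, x 1, x 2] := by
      funext j; fin_cases j <;> rfl
    have hx' : Function.update x 0 (Q (x 0)) = ![Q (x 0), x 1, x 2] := by
      funext j; fin_cases j <;> rfl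
    rw [hx', key, hQ _ _ (h0 _ (u1 _) _ (u2 _)), ← key, ← hx]
  have P1 : PRank (compAt m 1 κ₁) (finrank (ZMod p) (LinearMap.range κ₁)) :=
    PRank.comp_lin (by norm_num) m 1 κ₁ _ (compAt_apply m 1 κ₁)
  have P2 : PRank (compAt M1 2 κ₂) (finrank (ZMod p) (LinearMap.range κ₂)) :=
    PRank.comp_lin (by norm_num) M1 2 κ₂ _ (compAt_apply M1 2 κ₂)
  have P3 : PRank M2 (finrank (ZMod p) (LinearMap.range Q)) :=
    PRank.comp_lin (by norm_num) M2 0 Q _ s3
  have P4 := P1.add (P2.add P3)
  rw [← s2, ← s1] at P4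
  refine ⟨_, ?_, P4⟩
  -- numerics
  have hβ : ‖bias 1 univ m‖ = MPd91f4a.beta (toBilin m) := bias_eq_beta m
  have hβpos : 0 < MPd91f4a.beta (toBilin m) := MPd91f4a.beta_pos _
  have cV : (Nat.card (Fin n → ZMod p) : ℝ) = (p : ℝ) ^ n := by
    rw [Nat.card_eq_fintype_card, Fintype.card_fun, Fintype.card_fin, ZMod.card]; push_cast; rfl
  have cU : ∀ U : Submodule (ZMod p) (Fin n → ZMod p),
      (Nat.card U : ℝ) = (p : ℝ) ^ (finrank (ZMod p) U) := by
    intro U
    rw [Module.natCard_eq_pow_finrank (K := ZMod p), Nat.card_zmod]; push_cast; rfl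
  rw [cV, cU, cU, cU] at h1
  have hp0 : (0 : ℝ) < p := by exact_mod_cast hp.pos
  have hp1 : (1 : ℝ) < p := by exact_mod_cast hp.one_lt
  set β := MPd91f4a.beta (toBilin m) with hβd
  have h2 : ((finrank (ZMod p) (LinearMap.range κ₁) + (finrank (ZMod p) (LinearMap.range κ₂) +
      finrank (ZMod p) W₀) : ℕ) : ℝ) ≤ 12 * ar m := by
    rw [ar, hβ]
    have hlog := Real.log_le_log (by positivity) h1
    rw [Real.log_mul (by positivity) (by positivity), Real.log_mul (by positivity) (by positivity),
      Real.log_mul (by positivity) (by positivity), Real.log_mul (by positivity) (by positivity),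
      Real.log_pow, Real.log_pow, Real.log_pow, Real.log_pow, Real.log_pow] at hlog
    have hlp : 0 < Real.log p := Real.log_pos hp1
    have q1 : (n : ℝ) = finrank (ZMod p) (LinearMap.range κ₁) + finrank (ZMod p) U₁ := by
      exact_mod_cast r1.symm
    have q2 : (n : ℝ) = finrank (ZMod p) (LinearMap.range κ₂) + finrank (ZMod p) U₂ := by
      exact_mod_cast r2.symm
    have h3 : ((finrank (ZMod p) (LinearMap.range κ₁) : ℝ) + (finrank (ZMod p) (LinearMap.range κ₂) +
      finrank (ZMod p) W₀)) * Real.log p ≤ -(12 * Real.log β) := by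
      have q1' : (finrank (ZMod p) (LinearMap.range κ₁) : ℝ) = n - finrank (ZMod p) U₁ := by
        linarith
      have q2' : (finrank (ZMod p) (LinearMap.range κ₂) : ℝ) = n - finrank (ZMod p) U₂ := by
        linarith
      rw [q1', q2']
      push_cast at hlog
      nlinarith [hlog]
    push_cast
    rw [Real.logb, mul_neg, ← mul_div_assoc, ← neg_div, le_div_iff₀ hlp]
    exact h3
  refine le_trans ?_ h2
  exact_mod_cast by omega

theorem arBound_three : ArBound p 3 :=
  ⟨12, by norm_num, fun _ _ m => prank_le_three m⟩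

/-! ### The bilinear case -/

/-- The linear map `x ↦ (m(e_i, x))_i`. -/
def toLin2 (m : Form p 2 n) : (Fin n → ZMod p) →ₗ[ZMod p] (Fin n → ZMod p) where
  toFun x i := m ![Pi.single i 1, x]
  map_add' x y := by
    funext i
    have := m.map_update_add ![Pi.single i 1, 0] 1 x y
    have h : ∀ v : Fin n → ZMod p, Function.update ![Pi.single i 1, 0] 1 v
        = ![Pi.single i 1, v] := by
      intro v; funext j; fin_cases j <;> rfl
    rwa [h, h, h] at this
  map_smul' c x := by
    funext i
    have := m.map_update_smul ![Pi.single i 1, 0] 1 c x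
    have h : ∀ v : Fin n → ZMod p, Function.update ![Pi.single i 1, 0] 1 v
        = ![Pi.single i 1, v] := by
      intro v; funext j; fin_cases j <;> rfl
    rwa [h, h] at this

lemma slice_eq2 (m : Form p 2 n) (x : Fin 2 → Fin n → ZMod p) :
    slice m x = toLin2 m (x 1) := by
  funext i
  rw [slice]
  change _ = m ![Pi.single i 1, x 1]
  congr 1
  funext j; fin_cases j <;> rfl

lemma form_eq2 (m : Form p 2 n) (z x : Fin n → ZMod p) :
    m ![z, x] = ∑ i, z i * toLin2 m x i := by
  have h := pi_eq_sum_univ' z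
  have h2 := congrArg (m.toLinearMap ![0, x] 0) h
  have hu : ∀ v : Fin n → ZMod p, Function.update ![0, x] 0 v = ![v, x] := by
    intro v; funext j; fin_cases j <;> rfl
  rw [map_sum] at h2
  simp only [MultilinearMap.toLinearMap_apply, map_smul, smul_eq_mul, hu] at h2
  rw [h2]
  rfl

lemma bias_two (m : Form p 2 n) :
    ‖bias 1 univ m‖ * (p : ℝ) ^ n = (p : ℝ) ^ finrank (ZMod p) (LinearMap.ker (toLin2 m)) := by
  classical
  rw [norm_bias_univ m 1 one_ne_zero, av]
  have h1 : ∀ x, wt m 0 x = if toLin2 m (x 1) = 0 then (1 : ℝ) else 0 := by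
    intro x
    rw [wt_zero, slice_eq2]
  simp only [Fintype.piFinset_univ, h1]
  have h2 : ∑ x : Fin 2 → Fin n → ZMod p, (if toLin2 m (x 1) = 0 then (1 : ℝ) else 0)
      = (p : ℝ) ^ n * (p : ℝ) ^ finrank (ZMod p) (LinearMap.ker (toLin2 m)) := by
    rw [← (finTwoArrowEquiv (Fin n → ZMod p)).symm.sum_comp, Fintype.sum_prod_type]
    have h3 : ∀ z : Fin n → ZMod p, (∑ y : Fin n → ZMod p,
        if toLin2 m (((finTwoArrowEquiv (Fin n → ZMod p)).symm (z, y)) 1) = 0 then (1 : ℝ) else 0)
        = (p : ℝ) ^ finrank (ZMod p) (LinearMap.ker (toLin2 m)) := by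
      intro z
      have h4 : (∑ y : Fin n → ZMod p, if toLin2 m y = 0 then (1 : ℝ) else 0)
          = Nat.card (LinearMap.ker (toLin2 m)) := by
        rw [Finset.sum_boole]
        have : Nat.card (LinearMap.ker (toLin2 m)) = Nat.card {y // toLin2 m y = 0} := rfl
        rw [this, Nat.card_eq_fintype_card, Fintype.card_subtype]
      rw [Module.natCard_eq_pow_finrank (K := ZMod p), Nat.card_zmod] at h4
      push_cast at h4
      exact h4
    rw [Finset.sum_congr rfl (fun z _ => h3 z), Finset.sum_const, Finset.card_univ, nsmul_eq_mul,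
      Fintype.card_fun, Fintype.card_fin, ZMod.card]
    push_cast; rfl
  rw [h2]
  have hp0 : (0 : ℝ) < p := by exact_mod_cast (Fact.out : p.Prime).pos
  have hc : ((univ : Finset (Fin 2 → Fin n → ZMod p)).card : ℝ) = ((p : ℝ) ^ n) ^ 2 := by
    rw [Finset.card_univ, Fintype.card_fun, Fintype.card_fun, Fintype.card_fin, Fintype.card_fin,
      ZMod.card]
    push_cast; rfl
  rw [hc]
  field_simp

/-- Partition rank is at most analytic rank for bilinear forms over `F_p`. -/
theorem prank_le_two (m : Form p 2 n) : PRankLE m (ar m) := by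
  classical
  obtain ⟨κ, π, e, u, -, r⟩ := exists_proj (LinearMap.ker (toLin2 m))
  have hm : ∀ x, m x = m (Function.update x 1 (κ (x 1))) := by
    intro x
    have hx : x = ![x 0, x 1] := by funext j; fin_cases j <;> rfl
    have hx' : Function.update x 1 (κ (x 1)) = ![x 0, κ (x 1)] := by
      funext j; fin_cases j <;> rfl
    have h1 : toLin2 m (κ (x 1)) = toLin2 m (x 1) := by
      have h2 : x 1 = κ (x 1) + π (x 1) := by
        have := congrArg (fun g => g (x 1)) e
        simpa using this.symm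
      have h3 : toLin2 m (π (x 1)) = 0 := u (x 1)
      conv_rhs => rw [h2, map_add, h3, add_zero]
    rw [hx', form_eq2, h1, ← form_eq2, ← hx]
  refine ⟨_, ?_, PRank.comp_lin le_rfl m 1 κ m hm⟩
  have hp : p.Prime := Fact.out
  have hp0 : (0 : ℝ) < p := by exact_mod_cast hp.pos
  have hp1 : (1 : ℝ) < p := by exact_mod_cast hp.one_lt
  have hb := bias_two m
  have hbpos : 0 < ‖bias 1 univ m‖ := norm_bias_univ_pos m
  have hlog := congrArg Real.log hb
  rw [Real.log_mul hbpos.ne' (by positivity), Real.log_pow, Real.log_pow] at hlog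
  have hlp : 0 < Real.log p := Real.log_pos hp1
  rw [ar, Real.logb, ← neg_div, le_div_iff₀ hlp]
  have q : (n : ℝ) = finrank (ZMod p) (LinearMap.range κ)
      + finrank (ZMod p) (LinearMap.ker (toLin2 m)) := by exact_mod_cast r.symm
  have q' : (finrank (ZMod p) (LinearMap.range κ) : ℝ)
      = n - finrank (ZMod p) (LinearMap.ker (toLin2 m)) := by linarith
  rw [q']
  nlinarith [hlog]

theorem arBound_two : ArBound p 2 :=
  ⟨1, one_pos, fun _ _ m => by rw [one_mul]; exact prank_le_two m⟩

end Pool.Agent.H.MP_d91f4a_co
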