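import Pool.Agent.H.MP_d91f4a_co.Reduction

/-!
# Pulling a form back along differences
-/

namespace Pool.Agent.H.MP_d91f4a_co

open Finset Module

variable {p : ℕ} [Fact p.Prime] {e d n N : ℕ}

/-- the map `(u, w) ↦ u - w` from `F_p^(2n)` to `F_p^n` -/
noncomputable def diffMap (p n : ℕ) [Fact p.Prime] :
    (Fin (n + n) → ZMod p) →ₗ[ZMod p] (Fin n → ZMod p) :=
  LinearMap.pi fun i =>
    LinearMap.proj (R := ZMod p) (φ := fun _ : Fin (n + n) => ZMod p) (Fin.castAdd n i) -
      LinearMap.proj (R := ZMod p) (φ := fun _ : Fin (n + n) => ZMod p) (Fin.natAdd n i)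

theorem diffMap_apply (a : Fin (n + n) → ZMod p) (i : Fin n) :
    diffMap p n a i = a (Fin.castAdd n i) - a (Fin.natAdd n i) := rfl

/-- the pull-back of a form along differences in every variable -/
noncomputable def pull (m : Form p d n) : Form p d (n + n) :=
  m.compLinearMap fun _ => diffMap p n

theorem pull_apply (m : Form p d n) (x : Fin d → Fin (n + n) → ZMod p) :
    pull m x = m fun j => diffMap p n (x j) := rfl

theorem form_insert' (m : Form p (e + 1) N) (j : Fin (e + 1)) (y : Fin e → Fin N → ZMod p)
    (a : Fin N → ZMod p) :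
    m (j.insertNth a y) = ∑ k, a k * m (j.insertNth (Pi.single k 1) y) := by
  have h := pi_eq_sum_univ' a
  set x0 : Fin (e + 1) → Fin N → ZMod p := j.insertNth 0 y with hx0
  have h1 : ∀ b : Fin N → ZMod p, j.insertNth b y = Function.update x0 j b := by
    intro b; rw [hx0]; simp
  rw [h1 a]
  have h2 := congrArg (m.toLinearMap x0 j) h
  rw [map_sum] at h2
  simp only [MultilinearMap.toLinearMap_apply, map_smul, smul_eq_mul] at h2
  rw [h2]
  apply Finset.sum_congr rfl
  intro k _
  rw [h1 (Pi.single k 1)]

theorem char_sum' (m : Form p (e + 1) N) (t : ZMod p) (S : Finset (ZMod p)) (j : Fin (e + 1))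
    (y : Fin e → Fin N → ZMod p) :
    ∑ a ∈ cube S N, (ZMod.stdAddChar (t * m (j.insertNth a y)) : ℂ) =
      ∏ k, ∑ s ∈ S, (ZMod.stdAddChar (t * (s * m (j.insertNth (Pi.single k 1) y))) : ℂ) := by
  rw [Finset.prod_univ_sum]
  apply Finset.sum_congr rfl
  intro a _
  rw [form_insert', Finset.mul_sum, char_map_sum]

theorem pull_insert (m : Form p (e + 1) n) (j : Fin (e + 1)) (y : Fin e → Fin (n + n) → ZMod p)
    (a : Fin (n + n) → ZMod p) :
    pull m (j.insertNth a y) = m (j.insertNth (diffMap p n a) fun i => diffMap p n (y i)) := by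
  rw [pull_apply]
  congr 1
  funext i
  refine Fin.succAboveCases j ?_ ?_ i
  · simp
  · intro i; simp

theorem char_sum_pull (m : Form p (e + 1) n) (t : ZMod p) (S : Finset (ZMod p))
    (j : Fin (e + 1)) (y : Fin e → Fin (n + n) → ZMod p) :
    ∑ a ∈ cube S (n + n), (ZMod.stdAddChar (t * pull m (j.insertNth a y)) : ℂ) =
      ((∏ i, ‖∑ s ∈ S, (ZMod.stdAddChar (t * (s *
        m (j.insertNth (Pi.single i 1) fun i => diffMap p n (y i)))) : ℂ)‖ ^ 2 : ℝ) : ℂ) := by
  rw [char_sum', Fin.prod_univ_add, ← Finset.prod_mul_distrib]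
  push_cast
  apply Finset.prod_congr rfl
  intro i _
  rw [← Complex.mul_conj', map_sum]
  have h1 : diffMap p n (Pi.single (Fin.castAdd n i) 1) = Pi.single i 1 := by
    funext k
    have hk : Fin.natAdd n k ≠ Fin.castAdd n i := fun h => by
      have := congrArg Fin.val h
      simp only [Fin.val_natAdd, Fin.val_castAdd] at this
      omega
    rw [diffMap_apply, Pi.single_apply, Pi.single_apply, Pi.single_apply, if_neg hk, sub_zero]
    simp
  have h2 : diffMap p n (Pi.single (Fin.natAdd n i) 1) = - Pi.single i 1 := by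
    funext k
    have hk : Fin.castAdd n k ≠ Fin.natAdd n i := fun h => by
      have := congrArg Fin.val h
      simp only [Fin.val_natAdd, Fin.val_castAdd] at this
      omega
    rw [diffMap_apply, Pi.neg_apply, Pi.single_apply, Pi.single_apply, Pi.single_apply,
      if_neg hk, zero_sub]
    simp
  have h3 : m (j.insertNth (-Pi.single i 1) fun i => diffMap p n (y i)) =
      - m (j.insertNth (Pi.single i 1) fun i => diffMap p n (y i)) := by
    have h4 : ∀ b : Fin n → ZMod p, (j.insertNth b fun i => diffMap p n (y i) :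
        Fin (e + 1) → Fin n → ZMod p) =
        Function.update (j.insertNth 0 fun i => diffMap p n (y i)) j b := by
      intro b; simp
    rw [h4, h4 (Pi.single i 1)]
    have := map_neg (m.toLinearMap (j.insertNth 0 fun i => diffMap p n (y i)) j) (Pi.single i 1)
    simpa only [MultilinearMap.toLinearMap_apply] using this
  congr 1
  · apply Finset.sum_congr rfl
    intro s _
    rw [pull_insert, h1]
  · apply Finset.sum_congr rfl
    intro s _
    rw [pull_insert, h2, h3, ← AddChar.map_neg_eq_conj]
    congr 1
    ring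

theorem sum_re_pull (m : Form p (e + 1) n) (t : ZMod p) (S : Finset (ZMod p)) (hS : S.Nonempty)
    (j : Fin (e + 1)) (y : Fin e → Fin (n + n) → ZMod p) :
    (∑ a ∈ cube S (n + n), (ZMod.stdAddChar (t * pull m (j.insertNth a y)) : ℂ).re) /
        #(cube S (n + n)) =
      ∏ i, (‖∑ s ∈ S, (ZMod.stdAddChar (t * (s *
        m (j.insertNth (Pi.single i 1) fun i => diffMap p n (y i)))) : ℂ)‖ / #S) ^ 2 := by
  have hSpos : (0 : ℝ) < #S := by exact_mod_cast hS.card_pos
  rw [← Complex.re_sum, char_sum_pull, Complex.ofReal_re]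
  simp only [div_pow]
  rw [Finset.prod_div_distrib]
  congr 1
  simp only [cube, Fintype.card_piFinset, prod_const, card_univ, Fintype.card_fin]
  push_cast
  rw [← pow_mul]
  congr 1
  ring

theorem avg_mono (m : Form p (e + 1) n) (t : ZMod p) (ht : t ≠ 0) (S : Finset (ZMod p))
    (hS : S.Nonempty) (j : Fin (e + 1)) (y : Fin e → Fin (n + n) → ZMod p) :
    (∑ a ∈ (univ : Finset (Fin (n + n) → ZMod p)),
        (ZMod.stdAddChar (t * pull m (j.insertNth a y)) : ℂ).re) /
        #(univ : Finset (Fin (n + n) → ZMod p)) ≤
      (∑ a ∈ cube S (n + n), (ZMod.stdAddChar (t * pull m (j.insertNth a y)) : ℂ).re) /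
        #(cube S (n + n)) := by
  have hSpos : (0 : ℝ) < #S := by exact_mod_cast hS.card_pos
  have hp : (0 : ℝ) < p := by exact_mod_cast (Fact.out : p.Prime).pos
  have h1 := sum_re_pull m t univ univ_nonempty j y
  have hu : cube (univ : Finset (ZMod p)) (n + n) = univ := by simp [cube]
  rw [hu] at h1
  rw [h1, sum_re_pull m t S hS j y]
  apply Finset.prod_le_prod (fun _ _ => by positivity)
  intro i _
  generalize m (j.insertNth (Pi.single i 1) fun i => diffMap p n (y i)) = z
  by_cases hz : z = 0
  · subst hz
    simp [ZMod.card, hSpos.ne', hp.ne']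
  · have h3 : ∑ s : ZMod p, (ZMod.stdAddChar (t * (s * z)) : ℂ) = 0 := by
      have h4 := sum_char (p := p) (t * z)
      rw [if_neg (mul_ne_zero ht hz)] at h4
      rw [← h4]
      apply Finset.sum_congr rfl
      intro s _
      congr 1
      ring
    rw [h3, norm_zero, zero_div, zero_pow two_ne_zero]
    positivity

theorem av_mono_one {V : Type*} [DecidableEq V] (T : Fin (e + 1) → Finset V)
    (i : Fin (e + 1)) (A B : Finset V) (f : (Fin (e + 1) → V) → ℝ)
    (h : ∀ y : Fin e → V, (∑ a ∈ A, f (i.insertNth a y)) / #A ≤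
      (∑ b ∈ B, f (i.insertNth b y)) / #B) :
    av (Function.update T i A) f ≤ av (Function.update T i B) f := by
  rw [av_eq _ i, av_eq _ i]
  simp only [Fin.removeNth_update, Function.update_self]
  exact div_le_div_of_nonneg_right (Finset.sum_le_sum fun y _ => h y) (by positivity)

theorem av_pull_le (m : Form p (e + 1) n) (t : ZMod p) (ht : t ≠ 0) (S : Finset (ZMod p))
    (hS : S.Nonempty) (J : Finset (Fin (e + 1))) :
    av (fun i => if i ∈ J then univ else cube S (n + n))
        (fun x => (ZMod.stdAddChar (t * pull m x) : ℂ).re) ≤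
      av (fun _ => cube S (n + n)) (fun x => (ZMod.stdAddChar (t * pull m x) : ℂ).re) := by
  induction J using Finset.induction_on with
  | empty => simp
  | insert j J hj ih =>
    refine le_trans ?_ ih
    set T : Fin (e + 1) → Finset (Fin (n + n) → ZMod p) :=
      fun i => if i ∈ J then univ else cube S (n + n) with hT
    have h1 : T = Function.update T j (cube S (n + n)) := by
      symm
      rw [Function.update_eq_self_iff, hT]; simp [hj]
    have h2 : (fun i => if i ∈ insert j J then univ else cube S (n + n)) =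
        Function.update T j univ := by
      funext i
      by_cases hij : i = j
      · subst hij; simp
      · simp [hij, hT]
    rw [h2, h1, Function.update_idem]
    exact av_mono_one T j _ _ _ fun y => avg_mono m t ht S hS j y

/-- splitting a vector of length `2n` as `(difference, second half)` -/
noncomputable def splitEquiv (p n d : ℕ) [Fact p.Prime] :
    (Fin d → Fin (n + n) → ZMod p) ≃ (Fin d → Fin n → ZMod p) × (Fin d → Fin n → ZMod p) where
  toFun x := (fun j => diffMap p n (x j), fun j i => x j (Fin.natAdd n i))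
  invFun z := fun j => Fin.append (fun i => z.1 j i + z.2 j i) (z.2 j)
  left_inv x := by
    funext j k
    refine Fin.addCases (fun i => ?_) (fun i => ?_) k
    · simp only [Fin.append_left, diffMap_apply, sub_add_cancel]
    · simp only [Fin.append_right]
  right_inv z := by
    refine Prod.ext ?_ ?_
    · funext j i
      simp only [diffMap_apply, Fin.append_left, Fin.append_right, add_sub_cancel_right]
    · funext j i
      simp only [Fin.append_right]

theorem bias_pull_univ (m : Form p d n) (t : ZMod p) :
    bias t univ (pull m) = bias t univ m := by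
  have hp : (p : ℂ) ≠ 0 := by exact_mod_cast (Fact.out : p.Prime).ne_zero
  have h1 : ∀ N : ℕ, box (univ : Finset (ZMod p)) d N = univ := by
    intro N; simp [box]
  rw [bias, bias, h1, h1]
  have h2 : ∑ x : Fin d → Fin (n + n) → ZMod p, (ZMod.stdAddChar (t * pull m x) : ℂ) =
      ∑ z : (Fin d → Fin n → ZMod p) × (Fin d → Fin n → ZMod p),
        (ZMod.stdAddChar (t * m z.1) : ℂ) :=
    Fintype.sum_equiv (splitEquiv p n d) _ _ fun x => rfl
  rw [h2, Fintype.sum_prod_type]
  simp only [Finset.sum_const, Finset.card_univ, nsmul_eq_mul]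
  rw [← Finset.mul_sum, Fintype.card_congr (splitEquiv p n d), Fintype.card_prod]
  push_cast
  have h3 : (Fintype.card (Fin d → Fin n → ZMod p) : ℂ) ≠ 0 := by
    exact_mod_cast Fintype.card_ne_zero
  field_simp

/-- The bias of the pulled back form on any alphabet is at least the full bias. -/
theorem bias_le_pull (m : Form p (e + 1) n) (t : ZMod p) (ht : t ≠ 0) (S : Finset (ZMod p))
    (hS : S.Nonempty) : ‖bias 1 univ m‖ ≤ ‖bias t S (pull m)‖ := by
  have hre : ∀ T : Finset (ZMod p), (bias t T (pull m)).re =
      av (fun _ => cube T (n + n)) (fun x => (ZMod.stdAddChar (t * pull m x) : ℂ).re) := by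
    intro T
    rw [bias, av, box, ← Complex.re_sum, Complex.div_natCast_re]
  calc ‖bias 1 univ m‖ = ‖bias t univ m‖ := by
        rw [norm_bias_univ m 1 one_ne_zero, norm_bias_univ m t ht]
    _ = ‖bias t univ (pull m)‖ := by rw [bias_pull_univ]
    _ = (bias t univ (pull m)).re := by
        rw [norm_bias_univ _ t ht, bias_univ _ t ht, Complex.ofReal_re]
    _ ≤ (bias t S (pull m)).re := by
        rw [hre, hre]
        have := av_pull_le m t ht S hS univ
        simpa [cube] using this
    _ ≤ ‖bias t S (pull m)‖ := Complex.re_le_norm _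

/-- The partition rank does not increase under linear substitutions. -/
theorem PRank.comp {m : Form p d n} {r : ℕ} (h : PRank m r)
    (L : (Fin N → ZMod p) →ₗ[ZMod p] (Fin n → ZMod p)) :
    PRank (m.compLinearMap fun _ => L : Form p d N) r := by
  obtain ⟨I, hI, a, b, hab⟩ := h
  refine ⟨I, hI, fun k => (a k).compLinearMap fun _ => L, fun k => (b k).compLinearMap fun _ => L,
    fun x => ?_⟩
  rw [MultilinearMap.compLinearMap_apply, hab]
  rfl

/-- `b ↦ (b, 0)` -/
noncomputable def inclMap (p n : ℕ) [Fact p.Prime] :
    (Fin n → ZMod p) →ₗ[ZMod p] (Fin (n + n) → ZMod p) where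
  toFun b := Fin.append b 0
  map_add' b c := by
    funext k
    refine Fin.addCases (fun i => ?_) (fun i => ?_) k <;>
      simp only [Pi.add_apply, Fin.append_left, Fin.append_right, Pi.zero_apply, add_zero]
  map_smul' t b := by
    funext k
    refine Fin.addCases (fun i => ?_) (fun i => ?_) k <;>
      simp only [Pi.smul_apply, Fin.append_left, Fin.append_right, Pi.zero_apply, smul_zero,
        RingHom.id_apply]

theorem pull_incl (m : Form p d n) :
    ((pull m).compLinearMap fun _ => inclMap p n : Form p d n) = m := by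
  refine MultilinearMap.ext fun x => ?_
  rw [MultilinearMap.compLinearMap_apply, pull_apply]
  congr 1
  funext j i
  rw [diffMap_apply]
  show Fin.append (x j) 0 (Fin.castAdd n i) - Fin.append (x j) 0 (Fin.natAdd n i) = x j i
  rw [Fin.append_left, Fin.append_right, Pi.zero_apply, sub_zero]

theorem PRank.of_pull {m : Form p d n} {r : ℕ} (h : PRank (pull m) r) : PRank m r := by
  have := h.comp (inclMap p n)
  rwa [pull_incl] at this

end Pool.Agent.H.MP_d91f4a_co
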