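import Mathlib

/-!
# A short proof that slice rank is at most 12 times analytic rank for trilinear forms

For finite modules `A, B, W` over a commutative ring `R` and a bilinear map `f : A → B → W`, put
`β = P(f(x, y) = 0)`.  Then there are submodules `U₁ ≤ A`, `U₂ ≤ B`, `W₀ ≤ W` with
`f(U₁, U₂) ⊆ W₀` and `|A/U₁| |B/U₂| |W₀| ≤ β^{-12}`.
-/

namespace MPd91f4a

open Finset LinearMap

section card

variable {R : Type*} [CommRing R]
variable {B W : Type*} [AddCommGroup B] [AddCommGroup W] [Module R B] [Module R W]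

lemma eq_bot_of_card {P : Submodule R W} (h : Nat.card P = 1) : P = ⊥ := by
  have := (Nat.card_eq_one_iff_unique.1 h).1
  exact Submodule.subsingleton_iff_eq_bot.1 this

lemma card_ker_mul_card_range (g : B →ₗ[R] W) :
    Nat.card (ker g) * Nat.card (range g) = Nat.card B := by
  rw [Submodule.card_eq_card_quotient_mul_card (ker g)]
  congr 1
  exact (Nat.card_congr g.quotKerEquivRange.toEquiv).symm

lemma card_comap_mkQ [Finite W] (I : Submodule R W) (V : Submodule R (W ⧸ I)) :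
    Nat.card (V.comap I.mkQ) = Nat.card V * Nat.card I := by
  have h := card_ker_mul_card_range (I.mkQ.restrict (p := V.comap I.mkQ) (q := V) (fun x hx => hx))
  rw [← h, mul_comm]
  congr 1
  · have : range (I.mkQ.restrict (p := V.comap I.mkQ) (q := V) (fun x hx => hx)) = ⊤ := by
      rw [LinearMap.range_eq_top]
      rintro ⟨v, hv⟩
      obtain ⟨w, rfl⟩ := I.mkQ_surjective v
      exact ⟨⟨w, hv⟩, rfl⟩
    rw [this]
    exact Nat.card_congr (Submodule.topEquiv (R := R) (M := V)).toEquiv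
  · refine Nat.card_congr ?_
    refine ⟨fun x => ⟨x.1.1, ?_⟩, fun w => ⟨⟨w.1, ?_⟩, ?_⟩, ?_, ?_⟩
    · have := x.2
      rw [LinearMap.mem_ker] at this
      have h2 : I.mkQ x.1.1 = 0 := congrArg Subtype.val this
      rw [← LinearMap.mem_ker, Submodule.ker_mkQ] at h2
      exact h2
    · have h2 : I.mkQ w.1 = 0 := by simp
      rw [Submodule.mem_comap, h2]; exact V.zero_mem
    · rw [LinearMap.mem_ker]
      apply Subtype.ext
      simp [LinearMap.restrict_apply]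
    · intro x; rfl
    · intro x; rfl

lemma card_mul_card_le [Finite W] {P Q X Y : Submodule R W} (hXP : X ≤ P) (hXQ : X ≤ Q)
    (hY : Y ≤ P ⊔ Q) : Nat.card X * Nat.card Y ≤ Nat.card P * Nat.card Q := by
  have h := card_ker_mul_card_range (P.subtype.coprod (-Q.subtype))
  rw [Nat.card_prod] at h
  rw [← h]
  refine Nat.mul_le_mul ?_ ?_
  · refine Nat.card_le_card_of_injective
      (fun x : X => (⟨(⟨x.1, hXP x.2⟩, ⟨x.1, hXQ x.2⟩), ?_⟩ : ker (P.subtype.coprod (-Q.subtype)))) ?_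
    · simp [LinearMap.mem_ker]
    · intro x y hxy
      have := congrArg (fun z => (z.1.1 : W)) hxy
      exact Subtype.ext this
  · apply Nat.card_mono (Set.toFinite _)
    intro y hy
    have := hY hy
    rw [Submodule.mem_sup] at this
    obtain ⟨a, ha, b, hb, rfl⟩ := this
    refine ⟨(⟨a, ha⟩, ⟨-b, Q.neg_mem hb⟩), ?_⟩
    simp

/-- The rank inequality: with `N = M - M'` and `D` the map induced by `M` from `ker N` to
`W / im N`, we have `|im D|² |im N| ≤ |im M| |im M'|`. -/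
lemma rank_ineq [Finite W] (M M' N : B →ₗ[R] W) (hN : N = M - M') :
    (Nat.card (range ((range N).mkQ ∘ₗ M ∘ₗ (ker N).subtype))) ^ 2 * Nat.card (range N)
      ≤ Nat.card (range M) * Nat.card (range M') := by
  set D := (range N).mkQ ∘ₗ M ∘ₗ (ker N).subtype with hD
  set X := (ker N).map M with hX
  set Y := (range D).comap (range N).mkQ with hY
  have hYc : Nat.card Y = Nat.card (range D) * Nat.card (range N) := card_comap_mkQ _ _
  have hDX : Nat.card (range D) ≤ Nat.card X := by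
    have : (range D) = X.map (range N).mkQ := by
      rw [hD, hX, LinearMap.range_comp, LinearMap.range_comp, Submodule.range_subtype]
    rw [this]
    refine Nat.card_le_card_of_surjective
      (fun x : X => (⟨(range N).mkQ x.1, Submodule.mem_map_of_mem x.2⟩ :
        (X.map (range N).mkQ : Submodule R _))) ?_
    rintro ⟨y, hy⟩
    obtain ⟨x, hx, rfl⟩ := Submodule.mem_map.1 hy
    exact ⟨⟨x, hx⟩, rfl⟩
  have hXM : X ≤ range M := by
    rw [hX]; exact LinearMap.map_le_range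
  have hXM' : X ≤ range M' := by
    rintro _ ⟨k, hk, rfl⟩
    refine ⟨k, ?_⟩
    have : N k = 0 := hk
    rw [hN, LinearMap.sub_apply, sub_eq_zero] at this
    exact this.symm
  have hYM : Y ≤ range M ⊔ range M' := by
    intro w hw
    rw [hY, Submodule.mem_comap] at hw
    obtain ⟨k, hk⟩ := hw
    have hk' : (range N).mkQ (M k.1) = (range N).mkQ w := hk
    rw [← sub_eq_zero, ← map_sub] at hk'
    have h2 : M k.1 - w ∈ range N := by
      rw [← LinearMap.mem_ker, Submodule.ker_mkQ] at hk'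
      exact hk'
    obtain ⟨b, hb⟩ := h2
    have : w = M (k.1 - b) + M' b := by
      have h3 : N b = M b - M' b := by subst hN; rfl
      rw [h3] at hb
      rw [map_sub]
      have : w = M k.1 - (M b - M' b) := by rw [hb]; abel
      rw [this]; abel
    rw [this]
    exact Submodule.add_mem_sup ⟨_, rfl⟩ ⟨_, rfl⟩
  calc (Nat.card (range D)) ^ 2 * Nat.card (range N)
      = Nat.card (range D) * (Nat.card (range D) * Nat.card (range N)) := by ring
    _ ≤ Nat.card X * Nat.card Y := by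
        rw [hYc]; exact Nat.mul_le_mul_right _ hDX
    _ ≤ _ := card_mul_card_le hXM hXM' hYM

end card

section analytic

/-- The two-direction inequality `(E √a)(E √b) ≥ β^{3/2}`, with `τ = a^{1/4}`, `σ = b^{1/4}`. -/
lemma two_dir {A B : Type*} [Fintype A] [Fintype B] (Z : A → B → Prop)
    [∀ x y, Decidable (Z x y)] (τ : A → ℝ) (σ : B → ℝ) (hτ : ∀ x, 0 < τ x) (hσ : ∀ y, 0 < σ y)
    (N M : ℝ) (hN : 0 < N) (hM : 0 < M)
    (h1 : ∀ x, (∑ y, if Z x y then (1 : ℝ) else 0) = M * τ x ^ 4)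
    (h2 : ∀ y, (∑ x, if Z x y then (1 : ℝ) else 0) = N * σ y ^ 4)
    (β α γ : ℝ) (hβ0 : 0 < β) (hβ : (∑ x, τ x ^ 4) = N * β) (hβ' : (∑ y, σ y ^ 4) = M * β)
    (hα : (∑ x, τ x ^ 2) = N * α) (hγ : (∑ y, σ y ^ 2) = M * γ) :
    β ^ 3 ≤ (α * γ) ^ 2 := by
  classical
  set S : Finset (A × B) := univ.filter (fun p => Z p.1 p.2) with hS
  have sumS : ∀ F : A × B → ℝ, ∑ p ∈ S, F p = ∑ x, ∑ y, (if Z x y then F (x, y) else 0) := by
    intro F
    rw [hS, Finset.sum_filter, Fintype.sum_prod_type]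
  have e1 : ∑ p ∈ S, (1 : ℝ) = N * M * β := by
    rw [sumS]
    simp_rw [h1]
    rw [← Finset.mul_sum, hβ]; ring
  have e2 : ∑ p ∈ S, (τ p.1)⁻¹ ^ 2 = N * M * α := by
    rw [sumS]
    have : ∀ x, (∑ y, if Z x y then (τ (x, y).1)⁻¹ ^ 2 else 0) = M * τ x ^ 2 := by
      intro x
      have h3 : (∑ y, if Z x y then (τ (x, y).1)⁻¹ ^ 2 else 0)
          = (τ x)⁻¹ ^ 2 * ∑ y, (if Z x y then (1 : ℝ) else 0) := by
        rw [Finset.mul_sum]
        refine Finset.sum_congr rfl (fun y _ => ?_)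
        split_ifs <;> simp
      rw [h3, h1]
      have := (hτ x).ne'
      field_simp
    simp_rw [this]
    rw [← Finset.mul_sum, hα]; ring
  have e3 : ∑ p ∈ S, (σ p.2)⁻¹ ^ 2 = N * M * γ := by
    rw [sumS, Finset.sum_comm]
    have : ∀ y, (∑ x, if Z x y then (σ (x, y).2)⁻¹ ^ 2 else 0) = N * σ y ^ 2 := by
      intro y
      have h3 : (∑ x, if Z x y then (σ (x, y).2)⁻¹ ^ 2 else 0)
          = (σ y)⁻¹ ^ 2 * ∑ x, (if Z x y then (1 : ℝ) else 0) := by
        rw [Finset.mul_sum]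
        refine Finset.sum_congr rfl (fun y _ => ?_)
        split_ifs <;> simp
      rw [h3, h2]
      have := (hσ y).ne'
      field_simp
    simp_rw [this]
    rw [← Finset.mul_sum, hγ]; ring
  have e4 : ∑ p ∈ S, (τ p.1 * σ p.2) ^ 4 ≤ N * M * β ^ 2 := by
    have : ∑ p ∈ S, (τ p.1 * σ p.2) ^ 4 ≤ ∑ p : A × B, (τ p.1 * σ p.2) ^ 4 := by
      refine Finset.sum_le_sum_of_subset_of_nonneg (Finset.subset_univ _) (fun p _ _ => ?_)
      have := hτ p.1; have := hσ p.2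
      positivity
    refine this.trans (le_of_eq ?_)
    rw [Fintype.sum_prod_type]
    simp_rw [mul_pow]
    rw [← Fintype.sum_mul_sum, hβ, hβ']; ring
  set X1 := ∑ p ∈ S, (τ p.1 * σ p.2)⁻¹ with hX1
  set X2 := ∑ p ∈ S, (τ p.1 * σ p.2) with hX2
  set X3 := ∑ p ∈ S, (τ p.1 * σ p.2) ^ 2 with hX3
  set X4 := ∑ p ∈ S, (τ p.1 * σ p.2) ^ 4 with hX4
  have pos : ∀ p : A × B, 0 < τ p.1 * σ p.2 := fun p => mul_pos (hτ _) (hσ _)
  have c1 : (∑ p ∈ S, (1 : ℝ)) ^ 2 ≤ X1 * X2 := by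
    refine Finset.sum_sq_le_sum_mul_sum_of_sq_le_mul _ (fun p _ => (inv_pos.2 (pos p)).le)
      (fun p _ => (pos p).le) (fun p _ => ?_)
    have := (pos p).ne'
    rw [inv_mul_cancel₀ this, one_pow]
  have c2 : X2 ^ 2 ≤ (∑ p ∈ S, (1 : ℝ)) * X3 := by
    refine Finset.sum_sq_le_sum_mul_sum_of_sq_le_mul _ (fun p _ => zero_le_one)
      (fun p _ => sq_nonneg _) (fun p _ => le_of_eq (by ring))
  have c3 : X3 ^ 2 ≤ (∑ p ∈ S, (1 : ℝ)) * X4 := by
    refine Finset.sum_sq_le_sum_mul_sum_of_sq_le_mul _ (fun p _ => zero_le_one)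
      (fun p _ => pow_nonneg (pos p).le _) (fun p _ => le_of_eq (by ring))
  have c4 : X1 ^ 2 ≤ (∑ p ∈ S, (τ p.1)⁻¹ ^ 2) * (∑ p ∈ S, (σ p.2)⁻¹ ^ 2) := by
    refine Finset.sum_sq_le_sum_mul_sum_of_sq_le_mul _ (fun p _ => sq_nonneg _)
      (fun p _ => sq_nonneg _) (fun p _ => le_of_eq (by rw [mul_inv]; ring))
  rw [e1] at c1 c2 c3
  rw [e2, e3] at c4
  set K := N * M with hK
  have hKpos : 0 < K := mul_pos hN hM
  have hX1n : 0 ≤ X1 := Finset.sum_nonneg (fun p _ => (inv_pos.2 (pos p)).le)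
  have hX2n : 0 ≤ X2 := Finset.sum_nonneg (fun p _ => (pos p).le)
  have hX3n : 0 ≤ X3 := Finset.sum_nonneg (fun p _ => sq_nonneg _)
  -- X3^2 ≤ K^2 β^3
  have d3 : X3 ^ 2 ≤ K ^ 2 * β ^ 3 := by
    calc X3 ^ 2 ≤ K * β * X4 := c3
      _ ≤ K * β * (K * β ^ 2) := mul_le_mul_of_nonneg_left e4 (by positivity)
      _ = _ := by ring
  have d2 : X2 ^ 4 ≤ K ^ 4 * β ^ 5 := by
    calc X2 ^ 4 = (X2 ^ 2) ^ 2 := by ring
      _ ≤ (K * β * X3) ^ 2 := by gcongr
      _ = K ^ 2 * β ^ 2 * X3 ^ 2 := by ring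
      _ ≤ K ^ 2 * β ^ 2 * (K ^ 2 * β ^ 3) := by gcongr
      _ = _ := by ring
  have d1 : K ^ 8 * β ^ 8 ≤ X1 ^ 4 * (K ^ 4 * β ^ 5) := by
    calc K ^ 8 * β ^ 8 = ((K * β) ^ 2) ^ 4 := by ring
      _ ≤ (X1 * X2) ^ 4 := by gcongr
      _ = X1 ^ 4 * X2 ^ 4 := by ring
      _ ≤ X1 ^ 4 * (K ^ 4 * β ^ 5) := by gcongr
  have d4 : X1 ^ 4 ≤ K ^ 4 * (α * γ) ^ 2 := by
    calc X1 ^ 4 = (X1 ^ 2) ^ 2 := by ring
      _ ≤ (K * α * (K * γ)) ^ 2 := by gcongr
      _ = _ := by ring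
  have d5 : K ^ 8 * β ^ 5 * β ^ 3 ≤ K ^ 8 * β ^ 5 * (α * γ) ^ 2 := by
    calc K ^ 8 * β ^ 5 * β ^ 3 = K ^ 8 * β ^ 8 := by ring
      _ ≤ X1 ^ 4 * (K ^ 4 * β ^ 5) := d1
      _ ≤ (K ^ 4 * (α * γ) ^ 2) * (K ^ 4 * β ^ 5) := by gcongr
      _ = _ := by ring
  exact le_of_mul_le_mul_left d5 (by positivity)

/-- Power means for `u ≥ 0`: `(Σ u²)³ ≤ n (Σ u³)²`. -/
lemma power_mean {A : Type*} [Fintype A] (u : A → ℝ) (hu : ∀ x, 0 < u x) [Nonempty A] :
    (∑ x, u x ^ 2) ^ 3 ≤ (Fintype.card A : ℝ) * (∑ x, u x ^ 3) ^ 2 := by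
  have c1 : (∑ x, u x ^ 2) ^ 2 ≤ (∑ x, u x) * (∑ x, u x ^ 3) := by
    refine Finset.sum_sq_le_sum_mul_sum_of_sq_le_mul _ (fun p _ => (hu p).le)
      (fun p _ => pow_nonneg (hu p).le _) (fun p _ => le_of_eq (by ring))
  have c2 : (∑ x, u x) ^ 2 ≤ (∑ _x : A, (1 : ℝ)) * (∑ x, u x ^ 2) := by
    refine Finset.sum_sq_le_sum_mul_sum_of_sq_le_mul _ (fun p _ => zero_le_one)
      (fun p _ => sq_nonneg _) (fun p _ => le_of_eq (by ring))
  have hn : (∑ _x : A, (1 : ℝ)) = Fintype.card A := by simp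
  rw [hn] at c2
  set S1 := ∑ x, u x
  set S2 := ∑ x, u x ^ 2
  set S3 := ∑ x, u x ^ 3
  have hS2 : 0 < S2 := Finset.sum_pos (fun x _ => pow_pos (hu x) _) Finset.univ_nonempty
  have hS1 : 0 ≤ S1 := Finset.sum_nonneg (fun x _ => (hu x).le)
  have hS3 : 0 ≤ S3 := Finset.sum_nonneg (fun x _ => pow_nonneg (hu x).le _)
  have : S2 * S2 ^ 3 ≤ S2 * ((Fintype.card A : ℝ) * S3 ^ 2) := by
    calc S2 * S2 ^ 3 = (S2 ^ 2) ^ 2 := by ring
      _ ≤ (S1 * S3) ^ 2 := by gcongr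
      _ = S1 ^ 2 * S3 ^ 2 := by ring
      _ ≤ (Fintype.card A * S2) * S3 ^ 2 := by gcongr
      _ = _ := by ring
  exact le_of_mul_le_mul_left this hS2

/-- One direction: if `Σ_x h(x) h(x - x₀) ≤ n β u(x₀)²` for every `x₀` (strictly for some `x₀`),
where `h = u³`, then `(Σ u³)⁴ < n⁴ β³`. -/
lemma one_dir {A : Type*} [AddCommGroup A] [Fintype A] (u : A → ℝ) (hu : ∀ x, 0 < u x) (β : ℝ)
    (hβ : 0 < β)
    (h : ∀ x0, ∑ x, u x ^ 3 * u (x - x0) ^ 3 ≤ Fintype.card A * β * u x0 ^ 2)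
    (hs : ∃ x0, ∑ x, u x ^ 3 * u (x - x0) ^ 3 < Fintype.card A * β * u x0 ^ 2) :
    (∑ x, u x ^ 3) ^ 4 < (Fintype.card A : ℝ) ^ 4 * β ^ 3 := by
  have hn : (0 : ℝ) < Fintype.card A := by exact_mod_cast Fintype.card_pos
  set n : ℝ := (Fintype.card A : ℝ) with hnd
  have e1 : (∑ x, u x ^ 3) ^ 2 = ∑ x0, ∑ x, u x ^ 3 * u (x - x0) ^ 3 := by
    rw [Finset.sum_comm, sq, Fintype.sum_mul_sum]
    refine Finset.sum_congr rfl (fun x _ => ?_)
    exact (Equiv.sum_comp (Equiv.subLeft x) (fun y => u x ^ 3 * u y ^ 3)).symm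
  have e2 : ∑ x0, ∑ x, u x ^ 3 * u (x - x0) ^ 3 < ∑ x0, n * β * u x0 ^ 2 := by
    obtain ⟨x0, hx0⟩ := hs
    exact Finset.sum_lt_sum (fun x _ => h x) ⟨x0, Finset.mem_univ _, hx0⟩
  rw [← e1, ← Finset.mul_sum] at e2
  have pm := power_mean u hu
  rw [← hnd] at pm
  set S2 := ∑ x, u x ^ 2
  set S3 := ∑ x, u x ^ 3
  have hS3 : 0 < S3 := Finset.sum_pos (fun x _ => pow_pos (hu x) _) Finset.univ_nonempty
  have hS2 : 0 < S2 := Finset.sum_pos (fun x _ => pow_pos (hu x) _) Finset.univ_nonempty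
  have : S3 ^ 2 * S3 ^ 4 < S3 ^ 2 * (n ^ 4 * β ^ 3) := by
    calc S3 ^ 2 * S3 ^ 4 = (S3 ^ 2) ^ 3 := by ring
      _ < (n * β * S2) ^ 3 := by gcongr
      _ = n ^ 3 * β ^ 3 * S2 ^ 3 := by ring
      _ ≤ n ^ 3 * β ^ 3 * (n * S3 ^ 2) := by gcongr
      _ = _ := by ring
  exact lt_of_mul_lt_mul_left this (by positivity)

end analytic

section main

variable {R : Type*} [CommRing R]
variable {A B W : Type*} [AddCommGroup A] [AddCommGroup B] [AddCommGroup W]
  [Module R A] [Module R B] [Module R W]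

/-- The reduced bilinear map `A × ker f(x₀) → W / im f(x₀)`. -/
noncomputable def red (f : A →ₗ[R] B →ₗ[R] W) (x0 : A) :
    A →ₗ[R] (ker (f x0)) →ₗ[R] (W ⧸ range (f x0)) :=
  (f.compl₂ (ker (f x0)).subtype).compr₂ (range (f x0)).mkQ

/-- `|im f(x)|`. -/
noncomputable def rk (f : A →ₗ[R] B →ₗ[R] W) (x : A) : ℕ := Nat.card (range (f x))

/-- `β(f) = E_x 1/|im f(x)|`, which is `P(f(x,y) = 0)`. -/
noncomputable def beta [Fintype A] (f : A →ₗ[R] B →ₗ[R] W) : ℝ :=
  (∑ x : A, ((rk f x : ℕ) : ℝ)⁻¹) / Fintype.card A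

lemma rk_pos [Finite W] (f : A →ₗ[R] B →ₗ[R] W) (x : A) : 0 < rk f x := Nat.card_pos

lemma rk_red [Finite W] (f : A →ₗ[R] B →ₗ[R] W) (x0 x : A) :
    rk (red f x0) x ^ 2 * rk f x0 ≤ rk f x * rk f (x - x0) := by
  have := rank_ineq (f x) (f (x - x0)) (f x0) (by rw [map_sub]; abel)
  exact this

/-- Twelfth root of the rank. -/
noncomputable def nu (f : A →ₗ[R] B →ₗ[R] W) (x : A) : ℝ := ((rk f x : ℕ) : ℝ) ^ ((1 : ℝ) / 12)

lemma nu_pos [Finite W] (f : A →ₗ[R] B →ₗ[R] W) (x : A) : 0 < nu f x :=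
  Real.rpow_pos_of_pos (by exact_mod_cast rk_pos f x) _

lemma nu_pow [Finite W] (f : A →ₗ[R] B →ₗ[R] W) (x : A) : nu f x ^ 12 = rk f x := by
  rw [nu, ← Real.rpow_natCast, ← Real.rpow_mul (by positivity)]
  norm_num

lemma beta_pos [Fintype A] [Finite W] (f : A →ₗ[R] B →ₗ[R] W) : 0 < beta f := by
  unfold beta
  have : (0 : ℝ) < ∑ x : A, ((rk f x : ℕ) : ℝ)⁻¹ :=
    Finset.sum_pos (fun x _ => inv_pos.2 (by exact_mod_cast rk_pos f x)) Finset.univ_nonempty
  have hn : (0 : ℝ) < Fintype.card A := by exact_mod_cast Fintype.card_pos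
  positivity

lemma sum_nu [Fintype A] [Finite W] (f : A →ₗ[R] B →ₗ[R] W) :
    ∑ x : A, (nu f x)⁻¹ ^ 12 = Fintype.card A * beta f := by
  have hn : (0 : ℝ) < Fintype.card A := by exact_mod_cast Fintype.card_pos
  unfold beta
  rw [mul_div_cancel₀ _ hn.ne']
  refine Finset.sum_congr rfl (fun x _ => ?_)
  rw [inv_pow, nu_pow]

/-- The correlation inequality. -/
lemma corr [Fintype A] [Finite W] (f : A →ₗ[R] B →ₗ[R] W) (x0 : A) :
    ∑ x, ((nu f x)⁻¹ ^ 2) ^ 3 * ((nu f (x - x0))⁻¹ ^ 2) ^ 3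
      ≤ Fintype.card A * beta (red f x0) * (nu f x0)⁻¹ ^ 6 := by
  have hn : (0 : ℝ) < Fintype.card A := by exact_mod_cast Fintype.card_pos
  have : (Fintype.card A : ℝ) * beta (red f x0) = ∑ x : A, ((rk (red f x0) x : ℕ) : ℝ)⁻¹ := by
    unfold beta
    rw [mul_div_cancel₀ _ hn.ne']
  rw [this, Finset.sum_mul]
  refine Finset.sum_le_sum (fun x _ => ?_)
  have h := rk_red f x0 x
  have h' : ((rk (red f x0) x : ℕ) : ℝ) ^ 2 * (nu f x0) ^ 12 ≤ nu f x ^ 12 * nu f (x - x0) ^ 12 := by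
    rw [nu_pow, nu_pow, nu_pow]; exact_mod_cast h
  have h0 := nu_pos f x0
  have h1 := nu_pos f x
  have h2 := nu_pos f (x - x0)
  have : Finite (W ⧸ range (f x0)) := Quotient.finite _
  have h3 : (0 : ℝ) < (rk (red f x0) x : ℕ) := by exact_mod_cast rk_pos (red f x0) x
  have h4 : ((rk (red f x0) x : ℕ) : ℝ) * nu f x0 ^ 6 ≤ nu f x ^ 6 * nu f (x - x0) ^ 6 := by
    refine le_of_sq_le_sq ?_ (by positivity)
    calc (((rk (red f x0) x : ℕ) : ℝ) * nu f x0 ^ 6) ^ 2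
        = ((rk (red f x0) x : ℕ) : ℝ) ^ 2 * (nu f x0) ^ 12 := by ring
      _ ≤ nu f x ^ 12 * nu f (x - x0) ^ 12 := h'
      _ = _ := by ring
  have h5 : ((nu f x)⁻¹ ^ 2) ^ 3 * ((nu f (x - x0))⁻¹ ^ 2) ^ 3
      = (nu f x ^ 6 * nu f (x - x0) ^ 6)⁻¹ := by
    rw [mul_inv, ← inv_pow, ← inv_pow]; ring
  have h6 : ((rk (red f x0) x : ℕ) : ℝ)⁻¹ * (nu f x0)⁻¹ ^ 6
      = (((rk (red f x0) x : ℕ) : ℝ) * nu f x0 ^ 6)⁻¹ := by
    rw [mul_inv, ← inv_pow]
  rw [h5, h6]
  exact inv_anti₀ (by positivity) h4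

lemma one_dir_f [Fintype A] [Finite W] (f : A →ₗ[R] B →ₗ[R] W) (hf : f ≠ 0)
    (H : ∀ x0, 1 < rk f x0 → beta (red f x0) < beta f * nu f x0 ^ 2) :
    ((∑ x, (nu f x)⁻¹ ^ 6) / Fintype.card A) ^ 4 < beta f ^ 3 := by
  have hn : (0 : ℝ) < Fintype.card A := by exact_mod_cast Fintype.card_pos
  have hβ := beta_pos f
  have key : ∀ x0, (1 < rk f x0 →
      ∑ x, ((nu f x)⁻¹ ^ 2) ^ 3 * ((nu f (x - x0))⁻¹ ^ 2) ^ 3
        < Fintype.card A * beta f * ((nu f x0)⁻¹ ^ 2) ^ 2) := by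
    intro x0 hx0
    have h0 := nu_pos f x0
    calc _ ≤ Fintype.card A * beta (red f x0) * (nu f x0)⁻¹ ^ 6 := corr f x0
      _ < Fintype.card A * (beta f * nu f x0 ^ 2) * (nu f x0)⁻¹ ^ 6 := by
          have := H x0 hx0
          gcongr
      _ = _ := by field_simp
  have key1 : ∀ x0, rk f x0 = 1 →
      ∑ x, ((nu f x)⁻¹ ^ 2) ^ 3 * ((nu f (x - x0))⁻¹ ^ 2) ^ 3
        = Fintype.card A * beta f * ((nu f x0)⁻¹ ^ 2) ^ 2 := by
    intro x0 hx0
    have hr : range (f x0) = ⊥ := by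
      have : Nat.card (range (f x0)) = 1 := hx0
      exact eq_bot_of_card this
    have hfx : f x0 = 0 := LinearMap.range_eq_bot.1 hr
    have hnu : nu f x0 = 1 := by
      unfold nu; rw [hx0]; simp
    have h2 : ∀ x, nu f (x - x0) = nu f x := by
      intro x
      unfold nu rk
      rw [map_sub, hfx, sub_zero]
    rw [hnu]
    simp_rw [h2]
    have := sum_nu f
    simp only [inv_one, one_pow, mul_one]
    rw [← this]
    refine Finset.sum_congr rfl (fun x _ => by ring)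
  obtain ⟨x0, hx0⟩ : ∃ x0, f x0 ≠ 0 := by
    by_contra hcon
    push Not at hcon
    exact hf (LinearMap.ext hcon)
  have hx1 : 1 < rk f x0 := by
    rcases (Nat.lt_or_ge 1 (rk f x0)) with h | h
    · exact h
    · exfalso
      have h1 : rk f x0 = 1 := le_antisymm h (rk_pos f x0)
      have : Nat.card (range (f x0)) = 1 := h1
      exact hx0 (LinearMap.range_eq_bot.1 (eq_bot_of_card this))
  have := one_dir (fun x => (nu f x)⁻¹ ^ 2) (fun x => pow_pos (inv_pos.2 (nu_pos f x)) _) (beta f) hβ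
    (fun x0 => by
      rcases (Nat.lt_or_ge 1 (rk f x0)) with h | h
      · exact (key x0 h).le
      · exact (key1 x0 (le_antisymm h (rk_pos f x0))).le) ⟨x0, key x0 hx1⟩
  rw [div_pow, div_lt_iff₀ (by positivity)]
  have e : ∑ x, (nu f x)⁻¹ ^ 6 = ∑ x, ((nu f x)⁻¹ ^ 2) ^ 3 :=
    Finset.sum_congr rfl (fun x _ => by ring)
  rw [e]
  calc _ < _ := this
    _ = _ := by ring

/-- Number of zeros. -/
lemma sum_zero [Fintype B] [Finite W] (f : A →ₗ[R] B →ₗ[R] W) (x : A)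
    [∀ y, Decidable (f x y = 0)] :
    (∑ y : B, if f x y = 0 then (1 : ℝ) else 0) = Fintype.card B * ((nu f x)⁻¹ ^ 3) ^ 4 := by
  have h1 : (∑ y : B, if f x y = 0 then (1 : ℝ) else 0) = Nat.card (ker (f x)) := by
    rw [Finset.sum_boole]
    have : Nat.card (ker (f x)) = Nat.card {y : B // f x y = 0} := rfl
    rw [this, Nat.card_eq_fintype_card, Fintype.card_subtype]
  have h2 := card_ker_mul_card_range (f x)
  have h3 : ((nu f x)⁻¹ ^ 3) ^ 4 = ((rk f x : ℕ) : ℝ)⁻¹ := by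
    rw [← nu_pow, ← inv_pow]; ring
  have h4 : (0 : ℝ) < (rk f x : ℕ) := by exact_mod_cast rk_pos f x
  have h5 : (Nat.card (ker (f x)) : ℝ) * (rk f x : ℕ) = Fintype.card B := by
    rw [← Nat.card_eq_fintype_card]
    exact_mod_cast h2
  rw [h1, h3, ← h5]
  field_simp

lemma beta_eq_count [Fintype A] [Fintype B] [Finite W] (f : A →ₗ[R] B →ₗ[R] W)
    [∀ x y, Decidable (f x y = 0)] :
    beta f = (∑ x : A, ∑ y : B, if f x y = 0 then (1 : ℝ) else 0) /
      (Fintype.card A * Fintype.card B) := by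
  have hn : (0 : ℝ) < Fintype.card A := by exact_mod_cast Fintype.card_pos
  have hm : (0 : ℝ) < Fintype.card B := by exact_mod_cast Fintype.card_pos
  simp_rw [sum_zero f]
  rw [← Finset.mul_sum]
  have : ∑ x, ((nu f x)⁻¹ ^ 3) ^ 4 = ∑ x, (nu f x)⁻¹ ^ 12 :=
    Finset.sum_congr rfl (fun x _ => by ring)
  rw [this, sum_nu]
  field_simp

lemma beta_flip [Fintype A] [Fintype B] [Finite W] (f : A →ₗ[R] B →ₗ[R] W) :
    beta f.flip = beta f := by
  classical
  rw [beta_eq_count, beta_eq_count, Finset.sum_comm, mul_comm (Fintype.card B : ℝ)]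
  congr 1

/-- In one of the two directions there is a good reduction. -/
theorem exists_good [Fintype A] [Fintype B] [Finite W] (f : A →ₗ[R] B →ₗ[R] W) (hf : f ≠ 0) :
    (∃ x0, 1 < rk f x0 ∧ beta f * nu f x0 ^ 2 ≤ beta (red f x0)) ∨
    (∃ y0, 1 < rk f.flip y0 ∧ beta f.flip * nu f.flip y0 ^ 2 ≤ beta (red f.flip y0)) := by
  classical
  by_contra hcon
  push Not at hcon
  obtain ⟨H1, H2⟩ := hcon
  have hn : (0 : ℝ) < Fintype.card A := by exact_mod_cast Fintype.card_pos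
  have hm : (0 : ℝ) < Fintype.card B := by exact_mod_cast Fintype.card_pos
  have hf' : f.flip ≠ 0 := by
    intro h
    apply hf
    ext x y
    have := congrArg (fun g => g y x) h
    simpa using this
  have D1 := one_dir_f f hf H1
  have D2 := one_dir_f f.flip hf' H2
  rw [beta_flip] at D2
  set α := (∑ x, (nu f x)⁻¹ ^ 6) / (Fintype.card A : ℝ) with hα
  set γ := (∑ y, (nu f.flip y)⁻¹ ^ 6) / (Fintype.card B : ℝ) with hγ
  have hαn : 0 ≤ α := by
    apply div_nonneg (Finset.sum_nonneg (fun x _ => ?_)) hn.le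
    have := nu_pos f x; positivity
  have hγn : 0 ≤ γ := by
    apply div_nonneg (Finset.sum_nonneg (fun x _ => ?_)) hm.le
    have := nu_pos f.flip x; positivity
  have hβ := beta_pos f
  have T := two_dir (fun x y => f x y = 0) (fun x => (nu f x)⁻¹ ^ 3) (fun y => (nu f.flip y)⁻¹ ^ 3)
    (fun x => pow_pos (inv_pos.2 (nu_pos f x)) _) (fun y => pow_pos (inv_pos.2 (nu_pos f.flip y)) _)
    (Fintype.card A) (Fintype.card B) hn hm (fun x => sum_zero f x)
    (fun y => by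
      rw [← sum_zero f.flip y]
      exact Finset.sum_congr rfl (fun x _ => if_congr (by rw [LinearMap.flip_apply]) rfl rfl))
    (beta f) α γ hβ
    (by
      rw [← sum_nu f]
      exact Finset.sum_congr rfl (fun x _ => by ring))
    (by
      rw [← beta_flip f, ← sum_nu f.flip]
      exact Finset.sum_congr rfl (fun x _ => by ring))
    (by
      rw [hα, mul_div_cancel₀ _ hn.ne']
      exact Finset.sum_congr rfl (fun x _ => by ring))
    (by
      rw [hγ, mul_div_cancel₀ _ hm.ne']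
      exact Finset.sum_congr rfl (fun x _ => by ring))
  have : (α * γ) ^ 4 < (α * γ) ^ 4 := by
    calc (α * γ) ^ 4 = α ^ 4 * γ ^ 4 := by ring
      _ < beta f ^ 3 * beta f ^ 3 := by
          apply mul_lt_mul'' D1 D2 (by positivity) (by positivity)
      _ = (beta f ^ 3) ^ 2 := by ring
      _ ≤ ((α * γ) ^ 2) ^ 2 := by gcongr
      _ = _ := by ring
  exact lt_irrefl _ this

/-- The conclusion of the structure theorem. -/
def Struct [Fintype A] (f : A →ₗ[R] B →ₗ[R] W) : Prop :=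
  ∃ (U₁ : Submodule R A) (U₂ : Submodule R B) (W₀ : Submodule R W),
    (∀ x ∈ U₁, ∀ y ∈ U₂, f x y ∈ W₀) ∧
    (Nat.card A : ℝ) * Nat.card B * Nat.card W₀ * beta f ^ 12 ≤ Nat.card U₁ * Nat.card U₂

lemma struct_flip [Fintype A] [Fintype B] [Finite W] (f : A →ₗ[R] B →ₗ[R] W)
    (h : Struct f.flip) : Struct f := by
  obtain ⟨U₂, U₁, W₀, h0, h1⟩ := h
  refine ⟨U₁, U₂, W₀, fun x hx y hy => h0 y hy x hx, ?_⟩
  rw [beta_flip] at h1
  calc _ = (Nat.card B : ℝ) * Nat.card A * Nat.card W₀ * beta f ^ 12 := by ring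
    _ ≤ _ := h1
    _ = _ := by ring

lemma struct_of_red [Fintype A] [Fintype B] [Finite W] (f : A →ₗ[R] B →ₗ[R] W) (x0 : A)
    (hx : beta f * nu f x0 ^ 2 ≤ beta (red f x0)) (h : Struct (red f x0)) : Struct f := by
  obtain ⟨U₁, U₂, W₀, h0, h1⟩ := h
  refine ⟨U₁, U₂.map (ker (f x0)).subtype, W₀.comap (range (f x0)).mkQ, ?_, ?_⟩
  · rintro x hx _ ⟨y, hy, rfl⟩
    exact h0 x hx y hy
  · have e1 : Nat.card (U₂.map (ker (f x0)).subtype) = Nat.card U₂ := by
      refine (Nat.card_congr ?_).symm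
      exact (Submodule.equivMapOfInjective _ (Submodule.subtype_injective _) U₂).toEquiv
    rw [e1, card_comap_mkQ]
    have e2 : (Nat.card B : ℝ) = Nat.card (ker (f x0)) * nu f x0 ^ 12 := by
      rw [nu_pow, ← card_ker_mul_card_range (f x0)]
      push_cast
      rfl
    have e3 : ((Nat.card (range (f x0)) : ℕ) : ℝ) = nu f x0 ^ 12 := (nu_pow f x0).symm
    have hb := beta_pos f
    have hn := nu_pos f x0
    push_cast
    rw [e2, e3]
    calc _ = (Nat.card A : ℝ) * Nat.card (ker (f x0)) * Nat.card W₀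
            * (beta f * nu f x0 ^ 2) ^ 12 := by ring
      _ ≤ (Nat.card A : ℝ) * Nat.card (ker (f x0)) * Nat.card W₀ * beta (red f x0) ^ 12 := by
          gcongr
      _ ≤ _ := h1

end main

universe u v w t

/-- **Structure theorem**: for a bilinear map `f : A × B → W` between finite modules over a
commutative ring there are submodules `U₁ ≤ A`, `U₂ ≤ B`, `W₀ ≤ W` with `f(U₁, U₂) ⊆ W₀` and
`|A/U₁| |B/U₂| |W₀| ≤ β^{-12}`, where `β = P(f(x, y) = 0)`. -/
theorem struct_all {R : Type t} [CommRing R] (n : ℕ) :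
    ∀ (A : Type u) (B : Type v) (W : Type w) [AddCommGroup A] [AddCommGroup B] [AddCommGroup W]
      [Module R A] [Module R B] [Module R W] [Fintype A] [Fintype B] [Finite W]
      (f : A →ₗ[R] B →ₗ[R] W), Nat.card W ≤ n → Struct f := by
  classical
  induction n with
  | zero =>
    intro A B W _ _ _ _ _ _ _ _ _ f hW
    exact absurd hW (by have : 0 < Nat.card W := Nat.card_pos; omega)
  | succ n ih =>
    intro A B W _ _ _ _ _ _ _ _ _ f hW
    by_cases hf : f = 0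
    · refine ⟨⊤, ⊤, ⊥, ?_, ?_⟩
      · intro x _ y _; subst hf; simp
      · have hb : beta f = 1 := by
          have hn : (0 : ℝ) < Fintype.card A := by exact_mod_cast Fintype.card_pos
          unfold beta
          have : ∀ x, rk f x = 1 := by
            intro x; unfold rk; subst hf; simp
          simp only [this, Nat.cast_one, inv_one, Finset.sum_const, Finset.card_univ, nsmul_eq_mul,
            mul_one]
          exact div_self hn.ne'
        have e1 : Nat.card (⊤ : Submodule R A) = Nat.card A :=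
          Nat.card_congr (Submodule.topEquiv (R := R) (M := A)).toEquiv
        have e2 : Nat.card (⊤ : Submodule R B) = Nat.card B :=
          Nat.card_congr (Submodule.topEquiv (R := R) (M := B)).toEquiv
        rw [hb, e1, e2]
        simp
    · have cardlt : ∀ {I : Submodule R W}, 1 < Nat.card I → Nat.card (W ⧸ I) ≤ n := by
        intro I hI
        have h1 := Submodule.card_eq_card_quotient_mul_card I
        have h2 : 0 < Nat.card (W ⧸ I) := by
          have : Finite (W ⧸ I) := Quotient.finite _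
          exact Nat.card_pos
        have h3 : 2 * Nat.card (W ⧸ I) ≤ Nat.card I * Nat.card (W ⧸ I) :=
          Nat.mul_le_mul_right _ hI
        omega
      rcases exists_good f hf with ⟨x0, h1, h2⟩ | ⟨y0, h1, h2⟩
      · have : Finite (W ⧸ range (f x0)) := Quotient.finite _
        exact struct_of_red f x0 h2 (ih _ _ _ _ (cardlt h1))
      · have : Finite (W ⧸ range (f.flip y0)) := Quotient.finite _
        have : Fintype (ker (f.flip y0)) := Fintype.ofFinite _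
        exact struct_flip f (struct_of_red f.flip y0 h2
          (struct_flip _ (ih _ _ _ (red f.flip y0).flip (cardlt h1))))

end MPd91f4a
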